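import Mathlib

/-!
# From a function with vanishing sums to a counterexample to the Hughes conjecture

Let `F` be a group, `Phi` a normal subgroup of index `p ^ 2` and `phi : F → ZMod (p ^ 2)` a function
whose sum over every set `{x ^ t * h : t < p}`, `x ∉ Phi`, vanishes and with `p * phi 1 ≠ 0`.
Then the split extension of the module generated by the translates of `phi` by the image of `F` in
its automorphism group has a nontrivial proper Hughes subgroup, contained in a subgroup of index
`p ^ 2`.
-/

namespace Pool.Agent.MP_2bfd0d_al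

/-- The Hughes subgroup `H_p(G)`: the subgroup of `G` generated by the elements whose order is not
`p` (elements of infinite order have `orderOf` equal to `0`, so they are among the generators). -/
def hughes (p : ℕ) (G : Type) [Group G] : Subgroup G :=
  Subgroup.closure {g : G | orderOf g ≠ p}

section Affine

variable {F : Type} [Group F] (m : ℕ)

/-- Right translation of functions on `F`: `(tr y f) h = f (h * y)`. -/
def tr (y : F) : (F → ZMod m) →+ (F → ZMod m) where
  toFun f := fun h => f (h * y)
  map_zero' := rfl
  map_add' _ _ := rfl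

@[simp] lemma tr_apply (y : F) (f : F → ZMod m) (h : F) : tr m y f h = f (h * y) := rfl

lemma tr_one (f : F → ZMod m) : tr m 1 f = f := by
  funext h; simp

lemma tr_mul (x y : F) (f : F → ZMod m) : tr m (x * y) f = tr m x (tr m y f) := by
  funext h; simp [mul_assoc]

/-- The additive group generated by the translates of `phi`. -/
def mod (phi : F → ZMod m) : AddSubgroup (F → ZMod m) :=
  AddSubgroup.closure (Set.range fun y : F => tr m y phi)

lemma phi_mem (phi : F → ZMod m) : phi ∈ mod m phi := by
  apply AddSubgroup.subset_closure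
  exact ⟨1, tr_one m phi⟩

lemma tr_mem (phi : F → ZMod m) (x : F) {f : F → ZMod m} (hf : f ∈ mod m phi) :
    tr m x f ∈ mod m phi := by
  induction hf using AddSubgroup.closure_induction with
  | mem g hg =>
    obtain ⟨y, rfl⟩ := hg
    apply AddSubgroup.subset_closure
    exact ⟨x * y, tr_mul m x y phi⟩
  | zero => rw [map_zero]; exact (mod m phi).zero_mem
  | add f g _ _ hf hg => rw [map_add]; exact (mod m phi).add_mem hf hg
  | neg f _ hf => rw [map_neg]; exact (mod m phi).neg_mem hf

/-- The translation by `x` on the module generated by the translates of `phi`. -/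
def trN (phi : F → ZMod m) (x : F) (f : Multiplicative (mod m phi)) :
    Multiplicative (mod m phi) :=
  Multiplicative.ofAdd ⟨tr m x (Multiplicative.toAdd f).1, tr_mem m phi x (Multiplicative.toAdd f).2⟩

lemma ext_N {phi : F → ZMod m} {f g : Multiplicative (mod m phi)}
    (h : (Multiplicative.toAdd f).1 = (Multiplicative.toAdd g).1) : f = g :=
  Multiplicative.toAdd.injective (Subtype.ext h)

@[simp] lemma trN_val (phi : F → ZMod m) (x : F) (f : Multiplicative (mod m phi)) :
    (Multiplicative.toAdd (trN m phi x f)).1 = tr m x (Multiplicative.toAdd f).1 := rfl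

/-- The action of `F` on the module generated by the translates of `phi`, as automorphisms. -/
def act (phi : F → ZMod m) : F →* MulAut (Multiplicative (mod m phi)) where
  toFun x :=
    { toFun := trN m phi x
      invFun := trN m phi x⁻¹
      left_inv := by
        intro f
        apply ext_N
        rw [trN_val, trN_val, ← tr_mul, inv_mul_cancel, tr_one]
      right_inv := by
        intro f
        apply ext_N
        rw [trN_val, trN_val, ← tr_mul, mul_inv_cancel, tr_one]
      map_mul' := by
        intro f g
        apply ext_N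
        exact map_add (tr m x) _ _ }
  map_one' := by
    apply MulEquiv.ext
    intro f
    apply ext_N
    exact tr_one m _
  map_mul' x y := by
    apply MulEquiv.ext
    intro f
    apply ext_N
    exact tr_mul m x y _

@[simp] lemma act_val (phi : F → ZMod m) (x : F) (f : Multiplicative (mod m phi)) :
    (Multiplicative.toAdd (act m phi x f)).1 = tr m x (Multiplicative.toAdd f).1 := rfl

/-- The group `B`: the image of `F` in the automorphism group of the module. -/
abbrev BB (phi : F → ZMod m) : Type := F ⧸ (act m phi).ker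

/-- The faithful action of `B`. -/
def actB (phi : F → ZMod m) : BB m phi →* MulAut (Multiplicative (mod m phi)) :=
  QuotientGroup.kerLift (act m phi)

/-- The group `G`, the split extension of the module by `B`. -/
abbrev GG (phi : F → ZMod m) : Type := Multiplicative (mod m phi) ⋊[actB m phi] BB m phi

lemma pow_right (phi : F → ZMod m) (g : GG m phi) (k : ℕ) : (g ^ k).right = g.right ^ k :=
  map_pow (SemidirectProduct.rightHom) g k

lemma pow_left (phi : F → ZMod m) (g : GG m phi) (x : F) (hx : g.right = QuotientGroup.mk x)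
    (k : ℕ) : (Multiplicative.toAdd (g ^ k).left).1 =
      ∑ t ∈ Finset.range k, tr m (x ^ t) (Multiplicative.toAdd g.left).1 := by
  induction k with
  | zero => simp
  | succ k ih =>
    rw [Finset.sum_range_succ, ← ih, pow_succ, SemidirectProduct.mul_left, pow_right, hx]
    rfl

variable {m}

lemma norm_zero {p : ℕ} (phi : F → ZMod m) (Phi : Subgroup F) [Phi.Normal]
    (H : ∀ x ∉ Phi, ∀ h, ∑ t ∈ Finset.range p, phi (x ^ t * h) = 0)
    (x : F) (hx : x ∉ Phi) {f : F → ZMod m} (hf : f ∈ mod m phi) :
    ∑ t ∈ Finset.range p, tr m (x ^ t) f = 0 := by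
  induction hf using AddSubgroup.closure_induction with
  | mem g hg =>
    obtain ⟨y, rfl⟩ := hg
    funext h
    have hx' : h * x * h⁻¹ ∉ Phi := by
      intro hh
      apply hx
      have := (inferInstance : Phi.Normal).conj_mem _ hh h⁻¹
      simpa [mul_assoc] using this
    have := H _ hx' (h * y)
    simp only [conj_pow] at this
    rw [Finset.sum_apply]
    simpa [mul_assoc] using this
  | zero => simp
  | add f g _ _ hf hg => simp [Finset.sum_add_distrib, hf, hg]
  | neg f _ hf => simp [hf]

lemma tr_pow_p {p : ℕ} (phi : F → ZMod m) (Phi : Subgroup F) [Phi.Normal]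
    (H : ∀ x ∉ Phi, ∀ h, ∑ t ∈ Finset.range p, phi (x ^ t * h) = 0)
    (x : F) (hx : x ∉ Phi) {f : F → ZMod m} (hf : f ∈ mod m phi) :
    tr m (x ^ p) f = f := by
  have h1 := norm_zero phi Phi H x hx hf
  have h2 := norm_zero phi Phi H x hx (tr_mem m phi x hf)
  simp only [← tr_mul, ← pow_succ] at h2
  have h3 := Finset.sum_range_succ (fun t => tr m (x ^ t) f) p
  have h4 := Finset.sum_range_succ' (fun t => tr m (x ^ t) f) p
  rw [h1] at h3
  rw [h2, h3] at h4
  simpa [tr_one] using h4

lemma pow_p_mem_ker {p : ℕ} (phi : F → ZMod m) (Phi : Subgroup F) [Phi.Normal]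
    (H : ∀ x ∉ Phi, ∀ h, ∑ t ∈ Finset.range p, phi (x ^ t * h) = 0)
    (x : F) (hx : x ∉ Phi) : x ^ p ∈ (act m phi).ker := by
  rw [MonoidHom.mem_ker]
  apply MulEquiv.ext
  intro f
  apply ext_N
  rw [act_val]
  exact tr_pow_p phi Phi H x hx (Multiplicative.toAdd f).2

lemma ker_le {p : ℕ} (phi : F → ZMod m) (Phi : Subgroup F) [Phi.Normal]
    (H : ∀ x ∉ Phi, ∀ h, ∑ t ∈ Finset.range p, phi (x ^ t * h) = 0)
    (H1 : (p : ZMod m) * phi 1 ≠ 0) : (act m phi).ker ≤ Phi := by
  intro x hx
  by_contra hx'
  have h1 := norm_zero phi Phi H x hx' (phi_mem m phi)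
  have h2 : ∀ t : ℕ, tr m (x ^ t) phi = phi := by
    intro t
    have h3 : x ^ t ∈ (act m phi).ker := Subgroup.pow_mem _ hx t
    rw [MonoidHom.mem_ker] at h3
    have h4 := congrArg (fun σ : MulAut (Multiplicative (mod m phi)) =>
      (Multiplicative.toAdd (σ (Multiplicative.ofAdd ⟨phi, phi_mem m phi⟩))).1) h3
    exact h4
  simp only [h2, Finset.sum_const, Finset.card_range] at h1
  apply H1
  have h5 := congrFun h1 1
  simpa [nsmul_eq_mul] using h5

/-- Main group-theoretic construction. -/
theorem exists_group {p : ℕ} (hp : p.Prime) (hm : m = p ^ 2)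
    (phi : F → ZMod m) (Phi : Subgroup F) [Phi.Normal]
    (hindex : Phi.index = p ^ 2)
    (H : ∀ x ∉ Phi, ∀ h, ∑ t ∈ Finset.range p, phi (x ^ t * h) = 0)
    (H1 : (p : ZMod m) * phi 1 ≠ 0) (hfin : Finite (mod m phi))
    (hpow : ∀ x : F, ∀ h, phi (h * x ^ p ^ 2) = phi h) :
    ∃ (G : Type) (_ : Group G), Finite G ∧ IsPGroup p G ∧ hughes p G ≠ ⊥ ∧ hughes p G ≠ ⊤ ∧
      (hughes p G).index ≠ p := by
  have hker := ker_le phi Phi H H1
  let q : BB m phi →* F ⧸ Phi := QuotientGroup.map _ Phi (MonoidHom.id F) hker
  let π : GG m phi →* F ⧸ Phi := q.comp SemidirectProduct.rightHom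
  have hπsurj : Function.Surjective π := by
    intro y
    obtain ⟨x, rfl⟩ := QuotientGroup.mk_surjective y
    exact ⟨SemidirectProduct.inr (QuotientGroup.mk x), rfl⟩
  have hpi : π.ker.index = p ^ 2 := by
    rw [Subgroup.index_ker, MonoidHom.range_eq_top.mpr hπsurj, ← hindex]
    simp [Subgroup.index]
  have hord : ∀ g : GG m phi, g ∉ π.ker → orderOf g = p := by
    intro g hg
    obtain ⟨x, hx⟩ := QuotientGroup.mk_surjective g.right
    have hxPhi : x ∉ Phi := by
      intro h
      apply hg
      rw [MonoidHom.mem_ker]
      show q g.right = 1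
      rw [← hx]
      exact (QuotientGroup.eq_one_iff x).mpr h
    have : Fact p.Prime := ⟨hp⟩
    apply orderOf_eq_prime
    · apply SemidirectProduct.ext
      · apply ext_N
        rw [pow_left m phi g x hx.symm]
        exact norm_zero phi Phi H x hxPhi (Multiplicative.toAdd g.left).2
      · rw [pow_right, ← hx, ← QuotientGroup.mk_pow]
        exact (QuotientGroup.eq_one_iff _).mpr (pow_p_mem_ker phi Phi H x hxPhi)
    · rintro rfl
      exact hg (one_mem _)
  have hle : hughes p (GG m phi) ≤ π.ker := by
    unfold hughes
    rw [Subgroup.closure_le]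
    intro g hg
    by_contra hg'
    exact hg (hord g hg')
  have hp2 : p < p ^ 2 := by
    have := hp.one_lt
    nlinarith
  have hpow2 : ∀ x : F, x ^ p ^ 2 ∈ (act m phi).ker := by
    intro x
    rw [MonoidHom.mem_ker]
    apply MulEquiv.ext
    intro f
    apply ext_N
    rw [act_val]
    have hall : ∀ f ∈ mod m phi, tr m (x ^ p ^ 2) f = f := by
      intro f hf
      induction hf using AddSubgroup.closure_induction with
      | mem g hg =>
        obtain ⟨y, rfl⟩ := hg
        funext h
        have h1 := hpow (y⁻¹ * x * y) (h * y)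
        have h2 : (y⁻¹ * x * y) ^ p ^ 2 = y⁻¹ * x ^ p ^ 2 * y := by
          have := conj_pow (a := y⁻¹) (b := x) (i := p ^ 2)
          simpa using this
        rw [h2] at h1
        simp only [tr_apply]
        rw [← h1]
        congr 1
        group
      | zero => rw [map_zero]
      | add f g _ _ hf hg => rw [map_add, hf, hg]
      | neg f _ hf => rw [map_neg, hf]
    exact hall _ (Multiplicative.toAdd f).2
  refine ⟨GG m phi, inferInstance, ?_, ?_, ?_, ?_, ?_⟩
  · have : Finite (Multiplicative (mod m phi)) := hfin
    have : Finite (MulAut (Multiplicative (mod m phi))) := by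
      apply Finite.of_injective (fun σ : MulAut (Multiplicative (mod m phi)) =>
        (σ : Multiplicative (mod m phi) → Multiplicative (mod m phi)))
      exact DFunLike.coe_injective
    have : Finite (BB m phi) :=
      Finite.of_injective (actB m phi) (QuotientGroup.kerLift_injective (act m phi))
    exact Finite.of_equiv _ SemidirectProduct.equivProd.symm
  · intro g
    refine ⟨2 + 2, ?_⟩
    obtain ⟨x, hx⟩ := QuotientGroup.mk_surjective g.right
    have h1 : (g ^ p ^ 2).right = 1 := by
      rw [pow_right, ← hx, ← QuotientGroup.mk_pow]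
      exact (QuotientGroup.eq_one_iff _).mpr (hpow2 x)
    have h2 : g ^ p ^ 2 = SemidirectProduct.inl (g ^ p ^ 2).left := by
      apply SemidirectProduct.ext
      · rfl
      · rw [h1]; rfl
    rw [pow_add, pow_mul, h2, ← map_pow]
    have h3 : (g ^ p ^ 2).left ^ p ^ 2 = 1 := by
      apply ext_N
      rw [toAdd_pow, toAdd_one]
      funext y
      rw [← hm]
      simp
    rw [h3, map_one]
  · intro hbot
    let τ : GG m phi := SemidirectProduct.inl (Multiplicative.ofAdd ⟨phi, phi_mem m phi⟩)
    have hτ : orderOf τ ≠ p := by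
      intro h
      have h1 : τ ^ p = 1 := by rw [← h]; exact pow_orderOf_eq_one τ
      have h2 := pow_left m phi τ 1 rfl p
      rw [h1] at h2
      have h3 := congrFun h2 1
      apply H1
      simpa [τ, nsmul_eq_mul] using h3.symm
    have h1 : τ ∈ hughes p (GG m phi) := Subgroup.subset_closure hτ
    rw [hbot, Subgroup.mem_bot] at h1
    have h2 := congrArg (fun g : GG m phi => (Multiplicative.toAdd g.left).1 1) h1
    apply H1
    have h3 : phi 1 = 0 := by simpa [τ] using h2
    rw [h3, mul_zero]
  · intro htop
    rw [htop, top_le_iff] at hle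
    rw [hle, Subgroup.index_top] at hpi
    have := hp.one_lt
    omega
  · intro hidx
    have h1 := Subgroup.index_dvd_of_le hle
    rw [hidx, hpi] at h1
    have := Nat.le_of_dvd hp.pos h1
    omega

end Affine

end Pool.Agent.MP_2bfd0d_al
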