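import Pool.Agent.MP_2bfd0d_al.Key

/-!
# The concrete functionals
-/

namespace Pool.Agent.MP_2bfd0d_al

open Finset

namespace W

variable {K : Type} [CommRing K]

/-- Integral combinations of noncrossing matchings, as series. -/
def lamOf : List (ℤ × TLt) → W K
  | [] => 0
  | (p :: L) => ((p.1 : ℤ) : K) • p.2.ev + lamOf L

/-- Integral combinations of noncrossing matchings: coefficients. -/
def lamZ : List (ℤ × TLt) → List Bool → ℤ
  | [], _ => 0
  | (p :: L), w => p.1 * p.2.evZ w + lamZ L w

lemma lamOf_apply (L : List (ℤ × TLt)) (w : List Bool) :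
    (lamOf L : W K) w = ((lamZ L w : ℤ) : K) := by
  induction L with
  | nil => simp [lamOf, lamZ]
  | cons p L ih => simp [lamOf, lamZ, ih, ev_eq]

lemma T_lamOf (L : List (ℤ × TLt)) (g : Bool → Bool → K)
    (hg : g false false * g true true - g false true * g true false = 1) :
    T g (lamOf L : W K) = lamOf L := by
  induction L with
  | nil => simp [lamOf]
  | cons p L ih => rw [lamOf, T_add, T_smul, T_ev g hg, ih]

/-- All words of length `m`. -/
def allWords : ℕ → List (List Bool)
  | 0 => [[]]
  | (m + 1) => (allWords m).map (false :: ·) ++ (allWords m).map (true :: ·)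

lemma mem_allWords (w : List Bool) : w ∈ allWords w.length := by
  induction w with
  | nil => simp [allWords]
  | cons c w ih =>
    simp only [List.length_cons, allWords, List.mem_append, List.mem_map]
    cases c
    · left; exact ⟨w, ih, rfl⟩
    · right; exact ⟨w, ih, rfl⟩

lemma pair_eq_sum (m : ℕ) (l f : W K) :
    pair m l f = ((allWords m).map (fun w => l w * f w)).sum := by
  induction m generalizing l f with
  | zero => simp [allWords]
  | succ m ih =>
    rw [pair_succ, ih, ih, allWords, List.map_append, List.sum_append, List.map_map, List.map_map]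
    rfl

lemma sum_filter_ne (L : List (List Bool)) (z : List Bool → ℤ) (f : List Bool → K) :
    (L.map (fun w => ((z w : ℤ) : K) * f w)).sum =
      (((L.filter (fun w => z w ≠ 0)).map (fun w => (z w, w))).map
        (fun p => ((p.1 : ℤ) : K) * f p.2)).sum := by
  induction L with
  | nil => simp
  | cons w L ih =>
    by_cases h : z w = 0
    · simp only [List.map_cons, List.sum_cons, h, Int.cast_zero, zero_mul, zero_add, ih]
      rw [List.filter_cons_of_neg (by simpa using h)]
    · rw [List.filter_cons_of_pos (by simpa using h)]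
      simp only [List.map_cons, List.sum_cons, ih]

/-- The support of a functional, with its values. -/
def supList (m : ℕ) (L : List (ℤ × TLt)) : List (ℤ × List Bool) :=
  ((allWords m).filter (fun w => lamZ L w ≠ 0)).map (fun w => (lamZ L w, w))

lemma pair_lamOf (m : ℕ) (L : List (ℤ × TLt)) (f : W K) :
    pair m (lamOf L) f = ((supList m L).map (fun p => ((p.1 : ℤ) : K) * f p.2)).sum := by
  have h := sum_filter_ne (K := K) (allWords m) (lamZ L) f
  rw [pair_eq_sum, supList]
  simp only [lamOf_apply]
  exact h

lemma inv_lamOf (n : ℕ) (L : List (ℤ × TLt))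
    (h : ∀ w ∈ allWords (2 * n), lamZ L w ≠ 0 → w.count true = n) : Inv n (lamOf L) := by
  constructor
  · intro g hg
    exact T_lamOf L g hg
  · intro w hw hl
    apply h w (hw ▸ mem_allWords w)
    intro h0
    apply hl
    rw [lamOf_apply, h0, Int.cast_zero]

/-- The matching `()`. -/
def t1 : TLt := .node .nil .nil
/-- The matching `()()`. -/
def t11 : TLt := .node .nil t1
/-- The matching `(())`. -/
def t2 : TLt := .node t1 .nil

/-- The functional of weight 4: `(()) - 4 ()()`. -/
def L2 : List (ℤ × TLt) := [(1, t2), (-4, t11)]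

/-- The functional of weight 6: `()(()) - (())()`. -/
def L3 : List (ℤ × TLt) := [(1, .node .nil t2), (-1, .node t1 t1)]

/-- The functional of weight 8 with leading coefficient proportional to `det ^ 4`:
`2 ()(())() - ()(()()) - 2 ()((())) + 2 (())(()) - (()())() - 2 ((()))() - 2 (()(())) - 2 ((())())
+ ((()())) + 2 (((())))`. -/
def L4 : List (ℤ × TLt) :=
  [(2, .node .nil (.node t1 t1)), (-1, .node .nil (.node t11 .nil)),
   (-2, .node .nil (.node t2 .nil)), (2, .node t1 t2), (-1, .node t11 t1), (-2, .node t2 t1),
   (-2, .node (.node .nil t2) .nil), (-2, .node (.node t1 t1) .nil),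
   (1, .node (.node t11 .nil) .nil), (2, .node (.node t2 .nil) .nil)]

/-- The second functional of weight 8:
`-5 ()()(()) + ()(())() + ()((())) - (())()() - 2 (())(()) + ((()))() + 4 (()()()) + 4 (()(()))
+ 4 ((()())) + 2 (((())))`. -/
def L4' : List (ℤ × TLt) :=
  [(-5, .node .nil (.node .nil t2)), (1, .node .nil (.node t1 t1)),
   (1, .node .nil (.node t2 .nil)), (-1, .node t1 t11), (-2, .node t1 t2), (1, .node t2 t1),
   (4, .node (.node .nil t11) .nil), (4, .node (.node .nil t2) .nil),
   (4, .node (.node t11 .nil) .nil), (2, .node (.node t2 .nil) .nil)]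

lemma inv_L2 : Inv 2 (lamOf L2) := inv_lamOf 2 L2 (by decide +kernel)
lemma inv_L3 : Inv 3 (lamOf L3) := inv_lamOf 3 L3 (by decide +kernel)
lemma inv_L4 : Inv 4 (lamOf L4) := inv_lamOf 4 L4 (by decide +kernel)
lemma inv_L4' : Inv 4 (lamOf L4') := inv_lamOf 4 L4' (by decide +kernel)

end W

end Pool.Agent.MP_2bfd0d_al
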