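import Pool.Agent.MP_2bfd0d_al.Rho

/-!
# The leading part of `(r - 1) ^ n * s`
-/

namespace Pool.Agent.MP_2bfd0d_al

open Finset

namespace W

variable {K : Type} [CommRing K]

lemma pair_congr (m : ℕ) (l f f' : W K)
    (h : ∀ w : List Bool, w.length = m → l w ≠ 0 → f w = f' w) : pair m l f = pair m l f' := by
  induction m generalizing l f f' with
  | zero =>
    by_cases h0 : l [] = 0
    · simp [h0]
    · simp [h [] rfl h0]
  | succ m ih =>
    rw [pair_succ, pair_succ, ih (D false l) (D false f) (D false f'),
      ih (D true l) (D true f) (D true f')]
    · intro w hw hl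
      exact h _ (by simpa using hw) hl
    · intro w hw hl
      exact h _ (by simpa using hw) hl

lemma pair_zero_right (m : ℕ) (l : W K) : pair m l 0 = 0 := by
  induction m generalizing l with
  | zero => simp
  | succ m ih => simp [ih]

/-- Lemma A: multiplying on the left does not decrease the `B`-order. -/
lemma order_mul (k : ℕ) (g f : W K) (hf : ∀ u : List Bool, u.count true < k → f u = 0)
    (u : List Bool) (hu : u.count true < k) : (g * f) u = 0 := by
  induction u generalizing g with
  | nil => rw [mul_nil, hf [] hu, mul_zero]
  | cons c u ih =>
    rw [mul_cons, hf _ hu, mul_zero, zero_add]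
    apply ih
    have : u.count true ≤ (c :: u).count true := List.count_le_count_cons
    omega

/-- Lemma B: multiplying on the left by a series without pure `A`-terms increases the
`B`-order. -/
lemma order_mul_succ (k : ℕ) (y f : W K) (hy : ∀ i, y (List.replicate i false) = 0)
    (hf : ∀ u : List Bool, u.count true < k → f u = 0)
    (u : List Bool) (hu : u.count true < k + 1) : (y * f) u = 0 := by
  induction u generalizing y with
  | nil =>
    have := hy 0
    rw [List.replicate_zero] at this
    rw [mul_nil, this, zero_mul]
  | cons c u ih =>
    have h0 := hy 0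
    rw [List.replicate_zero] at h0
    rw [mul_cons, h0, zero_mul, zero_add]
    cases c with
    | false =>
      apply ih
      · intro i
        exact hy (i + 1)
      · simpa using hu
    | true =>
      apply order_mul k _ f hf
      simpa using hu

/-- Iterated left derivative along a word. -/
def Dw (v : List Bool) (f : W K) : W K := fun u => f (v ++ u)

/-- Lemma C. -/
lemma mul_replicate (y f : W K) (hy : ∀ i, y (List.replicate i false) = 0) (i : ℕ)
    (w : List Bool) : (y * f) (List.replicate i false ++ true :: w) =
      (Dw (List.replicate i false ++ [true]) y * f) w := by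
  induction i generalizing y with
  | zero =>
    have h0 := hy 0
    rw [List.replicate_zero] at h0
    rw [List.replicate_zero, List.nil_append, mul_cons, h0, zero_mul, zero_add]
    rfl
  | succ i ih =>
    have h0 := hy 0
    rw [List.replicate_zero] at h0
    rw [List.replicate_succ, List.cons_append, mul_cons, h0, zero_mul, zero_add]
    exact ih (D false y) (fun j => hy (j + 1))

/-- The pair of transfer functions computing the coefficients of `y ^ k * s` on words with exactly
`k` letters `B`. -/
def V (Y : ℕ → ℕ → K) (S : ℕ → K) : List Bool → (ℕ → K) × (ℕ → ℕ → K)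
  | [] => (fun i => S i, fun i l => Y i l * S 0)
  | (false :: w) => (fun i => (V Y S w).1 (i + 1),
      fun i l => Y i l * (V Y S w).1 1 + (V Y S w).2 i (l + 1))
  | (true :: w) => (fun i => (V Y S w).2 i 0, fun i l => Y i l * (V Y S w).2 0 0)

lemma V_nil1 (Y : ℕ → ℕ → K) (S : ℕ → K) (i : ℕ) : (V Y S []).1 i = S i := rfl
lemma V_nil2 (Y : ℕ → ℕ → K) (S : ℕ → K) (i l : ℕ) : (V Y S []).2 i l = Y i l * S 0 := rfl
lemma V_false1 (Y : ℕ → ℕ → K) (S : ℕ → K) (w : List Bool) (i : ℕ) :
    (V Y S (false :: w)).1 i = (V Y S w).1 (i + 1) := rfl
lemma V_false2 (Y : ℕ → ℕ → K) (S : ℕ → K) (w : List Bool) (i l : ℕ) :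
    (V Y S (false :: w)).2 i l = Y i l * (V Y S w).1 1 + (V Y S w).2 i (l + 1) := rfl
lemma V_true1 (Y : ℕ → ℕ → K) (S : ℕ → K) (w : List Bool) (i : ℕ) :
    (V Y S (true :: w)).1 i = (V Y S w).2 i 0 := rfl
lemma V_true2 (Y : ℕ → ℕ → K) (S : ℕ → K) (w : List Bool) (i l : ℕ) :
    (V Y S (true :: w)).2 i l = Y i l * (V Y S w).2 0 0 := rfl

lemma replicate_append_cons (l : ℕ) (u : List Bool) :
    List.replicate l false ++ false :: u = List.replicate (l + 1) false ++ u := by
  induction l with
  | zero => rfl
  | succ l ih => rw [List.replicate_succ, List.cons_append, ih]; rfl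

lemma order_pow (y s : W K) (hy : ∀ i, y (List.replicate i false) = 0) (k : ℕ) :
    ∀ u : List Bool, u.count true < k → (y ^ k * s) u = 0 := by
  induction k with
  | zero => intro u hu; omega
  | succ k ih =>
    intro u hu
    rw [pow_succ', mul_assoc]
    exact order_mul_succ k y _ hy ih u hu

lemma V_spec (y s : W K) (hy : ∀ i, y (List.replicate i false) = 0) (w : List Bool) :
    (∀ i, (y ^ (w.count true) * s) (List.replicate i false ++ w) =
      (V (fun i l => y (List.replicate i false ++ true :: List.replicate l false))
        (fun i => s (List.replicate i false)) w).1 i) ∧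
    (∀ i l, (Dw (List.replicate i false ++ true :: List.replicate l false) y *
        (y ^ (w.count true) * s)) w =
      (V (fun i l => y (List.replicate i false ++ true :: List.replicate l false))
        (fun i => s (List.replicate i false)) w).2 i l) := by
  induction w with
  | nil =>
    constructor
    · intro i
      rw [List.count_nil, pow_zero, one_mul, List.append_nil]
      rfl
    · intro i l
      rw [List.count_nil, pow_zero, one_mul, mul_nil]
      unfold Dw
      rw [List.append_nil]
      rfl
  | cons c w ih =>
    obtain ⟨ih1, ih2⟩ := ih
    have c0 : ∀ i, (y ^ ((c :: w).count true) * s) (List.replicate i false ++ c :: w) =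
      (V (fun i l => y (List.replicate i false ++ true :: List.replicate l false))
        (fun i => s (List.replicate i false)) (c :: w)).1 i := by
      intro i
      cases c with
      | false =>
        rw [V_false1, ← ih1, replicate_append_cons]
        simp
      | true =>
        rw [V_true1, ← ih2, List.count_cons_self, pow_succ', mul_assoc, mul_replicate y _ hy]
        rfl
    refine ⟨c0, ?_⟩
    intro i l
    have c0' := c0 0
    rw [List.replicate_zero, List.nil_append] at c0'
    have e0 : Dw (List.replicate i false ++ true :: List.replicate l false) y [] =
        y (List.replicate i false ++ true :: List.replicate l false) := by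
      unfold Dw
      rw [List.append_nil]
    rw [mul_cons, c0', e0]
    cases c with
    | false =>
      rw [V_false2, ← ih2, V_false1]
      have e : D false (Dw (List.replicate i false ++ true :: List.replicate l false) y) =
          Dw (List.replicate i false ++ true :: List.replicate (l + 1) false) y := by
        funext u
        rw [D_apply]
        unfold Dw
        rw [List.append_assoc, List.append_assoc, List.cons_append, List.cons_append,
          replicate_append_cons]
      rw [e]
      simp
    | true =>
      rw [V_true2, V_true1]
      have hz := order_mul (w.count true + 1)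
          (D true (Dw (List.replicate i false ++ true :: List.replicate l false) y))
          (y ^ ((true :: w).count true) * s)
          (by
            rw [List.count_cons_self]
            exact order_pow y s hy _) w (by omega)
      rw [hz, add_zero]

/-! ### Consequences of the derivation property -/

lemma del_replicate (f : W K) (k : ℕ) :
    del false f (List.replicate k false) = (k + 1) * f (List.replicate (k + 1) false) := by
  induction k generalizing f with
  | zero => simp
  | succ k ih =>
    rw [List.replicate_succ, del_cons, ih]
    simp only [D_apply, ← List.replicate_succ]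
    push_cast
    ring

lemma del_replicate2 (f : W K) (i l : ℕ) :
    del false f (List.replicate i false ++ true :: List.replicate l false) =
      (i + 1) * f (List.replicate (i + 1) false ++ true :: List.replicate l false) +
      (l + 1) * f (List.replicate i false ++ true :: List.replicate (l + 1) false) := by
  induction i generalizing f with
  | zero =>
    rw [List.replicate_zero, List.nil_append, del_cons, del_replicate]
    simp
  | succ i ih =>
    rw [List.replicate_succ, List.cons_append, del_cons, ih]
    simp only [D_apply, List.replicate_succ, List.cons_append]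
    push_cast
    ring

/-- The coefficients of `ad_A ^ k B`. -/
def Yc (d : ℕ → ℚ) (i l : ℕ) : ℚ := (-1) ^ l * ((i + l).choose l : ℕ) * d (i + l)

/-- The coefficients of an exponential. -/
def Sc (α : ℚ) (j : ℕ) : ℚ := α ^ j / (j.factorial : ℕ)

lemma Y_eq (r : W ℚ) (hr : del false r = 0) (i l : ℕ) :
    r (List.replicate i false ++ true :: List.replicate l false) =
      Yc (fun k => r (List.replicate k false ++ [true])) i l := by
  induction l generalizing i with
  | zero => simp [Yc]
  | succ l ih =>
    have h1 := del_replicate2 r i l
    rw [hr, zero_apply, ih (i + 1)] at h1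
    unfold Yc at h1 ⊢
    have h2 : ((i + (l + 1)).choose (l + 1) : ℚ) * ((l : ℚ) + 1) =
        ((i + (l + 1)).choose l : ℚ) * ((i : ℚ) + 1) := by
      have := Nat.choose_succ_right_eq (i + (l + 1)) l
      rw [show i + (l + 1) - l = i + 1 by omega] at this
      exact_mod_cast this
    have h3 : ((l : ℚ) + 1) ≠ 0 := by positivity
    rw [show i + 1 + l = i + (l + 1) by omega] at h1
    apply mul_left_cancel₀ h3
    rw [pow_succ]
    linear_combination -h1 + ((-1) ^ l * r (List.replicate (i + (l + 1)) false ++ [true])) * h2

lemma S_eq (s : W ℚ) (α : ℚ) (hs : del false s = α • s) (h0 : s [] = 1) (j : ℕ) :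
    s (List.replicate j false) = Sc α j := by
  induction j with
  | zero => simp [Sc, h0]
  | succ j ih =>
    have h1 := del_replicate s j
    rw [hs, smul_apply, ih] at h1
    unfold Sc at h1 ⊢
    have h3 : ((j : ℚ) + 1) ≠ 0 := by positivity
    have h4 : (j.factorial : ℚ) ≠ 0 := by exact_mod_cast Nat.factorial_ne_zero _
    rw [Nat.factorial_succ]
    push_cast
    field_simp
    field_simp at h1
    linear_combination -h1

/-- The series of leading coefficients. -/
def vv (d : ℕ → ℚ) (α : ℚ) : W ℚ := fun w => (V (Yc d) (Sc α) w).1 0

lemma pow_apply_eq (r s : W ℚ) (hr : del false r = 0) (hr0 : r [] = 1) (α : ℚ)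
    (hs : del false s = α • s) (hs0 : s [] = 1) (w : List Bool) :
    ((r - 1) ^ (w.count true) * s) w =
      vv (fun k => r (List.replicate k false ++ [true])) α w := by
  have hy : ∀ i, (r - 1) (List.replicate i false) = 0 := by
    intro i
    cases i with
    | zero => simp [hr0]
    | succ i =>
      have h1 := del_replicate r i
      rw [hr, zero_apply] at h1
      have h3 : ((i : ℚ) + 1) ≠ 0 := by positivity
      have h4 : r (List.replicate (i + 1) false) = 0 := by
        have := mul_eq_zero.mp h1.symm
        exact this.resolve_left h3
      rw [sub_apply, h4, List.replicate_succ, one_cons, sub_zero]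
  have h := (V_spec (r - 1) s hy w).1 0
  rw [List.replicate_zero, List.nil_append] at h
  rw [h]
  have e1 : (fun i l => (r - 1) (List.replicate i false ++ true :: List.replicate l false)) =
      Yc (fun k => r (List.replicate k false ++ [true])) := by
    funext i l
    rw [← Y_eq r hr i l, sub_apply]
    have : (1 : W ℚ) (List.replicate i false ++ true :: List.replicate l false) = 0 := by
      cases i <;> rfl
    rw [this, sub_zero]
  have e2 : (fun i => s (List.replicate i false)) = Sc α := by
    funext j
    exact S_eq s α hs hs0 j
  rw [e1, e2]
  rfl

end W

end Pool.Agent.MP_2bfd0d_al
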