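import Pool.Agent.MP_2bfd0d_al.Concrete

/-!
# Evaluation of the concrete functionals on leading coefficients
-/

namespace Pool.Agent.MP_2bfd0d_al

namespace W

set_option maxRecDepth 100000

lemma supL2 : supList 4 L2 = [(1, [false, false, true, true]), (-5, [false, true, false, true]),
    (4, [false, true, true, false]), (4, [true, false, false, true]),
    (-5, [true, false, true, false]), (1, [true, true, false, false])] := by decide +kernel

lemma supL3 : supList 6 L3 =
    [(-1, [false, false, true, true, false, true]), (1, [false, false, true, true, true,
    false]), (1, [false, true, false, false, true, true]), (-1, [false, true, false, true, true,
    false]), (-1, [false, true, true, false, true, false]), (1, [false, true, true, true, false,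
    false]), (-1, [true, false, false, false, true, true]), (1, [true, false, false, true,
    false, true]), (1, [true, false, true, false, false, true]), (-1, [true, false, true, true,
    false, false]), (-1, [true, true, false, false, false, true]), (1, [true, true, false,
    false, true, false])] := by decide +kernel

lemma supL4 : supList 8 L4 =
    [(2, [false, false, false, false, true, true, true, true]), (-1, [false, false, false, true,
    false, true, true, true]), (-3, [false, false, false, true, true, false, true, true]), (2,
    [false, false, false, true, true, true, true, false]), (-3, [false, false, true, false,
    false, true, true, true]), (3, [false, false, true, false, true, false, true, true]), (-1,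
    [false, false, true, false, true, true, false, true]), (-1, [false, false, true, false,
    true, true, true, false]), (4, [false, false, true, true, false, false, true, true]), (1,
    [false, false, true, true, false, true, false, true]), (-1, [false, false, true, true,
    false, true, true, false]), (-2, [false, false, true, true, true, false, false, true]), (-2,
    [false, false, true, true, true, false, true, false]), (2, [false, false, true, true, true,
    true, false, false]), (-1, [false, true, false, false, true, false, true, true]), (2,
    [false, true, false, false, true, true, false, true]), (-3, [false, true, false, false,
    true, true, true, false]), (1, [false, true, false, true, false, false, true, true]), (-1,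
    [false, true, false, true, false, true, false, true]), (1, [false, true, false, true, false,
    true, true, false]), (1, [false, true, false, true, true, false, false, true]), (2, [false,
    true, false, true, true, false, true, false]), (-2, [false, true, false, true, true, true,
    false, false]), (-2, [false, true, true, false, false, false, true, true]), (1, [false,
    true, true, false, false, true, false, true]), (4, [false, true, true, false, false, true,
    true, false]), (-1, [false, true, true, false, true, false, false, true]), (1, [false, true,
    true, false, true, false, true, false]), (-1, [false, true, true, false, true, true, false,
    false]), (-3, [false, true, true, true, false, false, true, false]), (-1, [false, true,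
    true, true, false, true, false, false]), (2, [false, true, true, true, true, false, false,
    false]), (2, [true, false, false, false, false, true, true, true]), (-1, [true, false,
    false, false, true, false, true, true]), (-3, [true, false, false, false, true, true, false,
    true]), (-1, [true, false, false, true, false, false, true, true]), (1, [true, false, false,
    true, false, true, false, true]), (-1, [true, false, false, true, false, true, true,
    false]), (4, [true, false, false, true, true, false, false, true]), (1, [true, false, false,
    true, true, false, true, false]), (-2, [true, false, false, true, true, true, false,
    false]), (-2, [true, false, true, false, false, false, true, true]), (2, [true, false, true,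
    false, false, true, false, true]), (1, [true, false, true, false, false, true, true,
    false]), (1, [true, false, true, false, true, false, false, true]), (-1, [true, false, true,
    false, true, false, true, false]), (1, [true, false, true, false, true, true, false,
    false]), (-3, [true, false, true, true, false, false, false, true]), (2, [true, false, true,
    true, false, false, true, false]), (-1, [true, false, true, true, false, true, false,
    false]), (2, [true, true, false, false, false, false, true, true]), (-2, [true, true, false,
    false, false, true, false, true]), (-2, [true, true, false, false, false, true, true,
    false]), (-1, [true, true, false, false, true, false, false, true]), (1, [true, true, false,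
    false, true, false, true, false]), (4, [true, true, false, false, true, true, false,
    false]), (-1, [true, true, false, true, false, false, false, true]), (-1, [true, true,
    false, true, false, false, true, false]), (3, [true, true, false, true, false, true, false,
    false]), (-3, [true, true, false, true, true, false, false, false]), (2, [true, true, true,
    false, false, false, false, true]), (-3, [true, true, true, false, false, true, false,
    false]), (-1, [true, true, true, false, true, false, false, false]), (2, [true, true, true,
    true, false, false, false, false])] := by decide +kernel

lemma supL4' : supList 8 L4' =
    [(2, [false, false, false, false, true, true, true, true]), (2, [false, false, false, true,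
    false, true, true, true]), (-4, [false, false, false, true, true, false, true, true]), (1,
    [false, false, false, true, true, true, false, true]), (-1, [false, false, false, true,
    true, true, true, false]), (2, [false, false, true, false, true, false, true, true]), (-5,
    [false, false, true, false, true, true, false, true]), (1, [false, false, true, false, true,
    true, true, false]), (-4, [false, false, true, true, false, false, true, true]), (1, [false,
    false, true, true, false, true, false, true]), (1, [false, false, true, true, false, true,
    true, false]), (5, [false, false, true, true, true, false, false, true]), (1, [false, false,
    true, true, true, false, true, false]), (-2, [false, false, true, true, true, true, false,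
    false]), (-3, [false, true, false, false, false, true, true, true]), (-1, [false, true,
    false, false, true, false, true, true]), (3, [false, true, false, false, true, true, false,
    true]), (-1, [false, true, false, false, true, true, true, false]), (1, [false, true, false,
    true, false, false, true, true]), (-1, [false, true, false, true, false, true, false,
    true]), (1, [false, true, false, true, false, true, true, false]), (4, [false, true, false,
    true, true, false, true, false]), (-3, [false, true, false, true, true, true, false,
    false]), (5, [false, true, true, false, false, false, true, true]), (-2, [false, true, true,
    false, false, true, true, false]), (-3, [false, true, true, false, true, false, false,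
    true]), (-3, [false, true, true, false, true, false, true, false]), (5, [false, true, true,
    false, true, true, false, false]), (-1, [false, true, true, true, false, false, false,
    true]), (-1, [false, true, true, true, false, false, true, false]), (1, [false, true, true,
    true, false, true, false, false]), (-1, [false, true, true, true, true, false, false,
    false]), (-1, [true, false, false, false, false, true, true, true]), (1, [true, false,
    false, false, true, false, true, true]), (-1, [true, false, false, false, true, true, false,
    true]), (-1, [true, false, false, false, true, true, true, false]), (5, [true, false, false,
    true, false, false, true, true]), (-3, [true, false, false, true, false, true, false,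
    true]), (-3, [true, false, false, true, false, true, true, false]), (-2, [true, false,
    false, true, true, false, false, true]), (5, [true, false, false, true, true, true, false,
    false]), (-3, [true, false, true, false, false, false, true, true]), (4, [true, false, true,
    false, false, true, false, true]), (1, [true, false, true, false, true, false, false,
    true]), (-1, [true, false, true, false, true, false, true, false]), (1, [true, false, true,
    false, true, true, false, false]), (-1, [true, false, true, true, false, false, false,
    true]), (3, [true, false, true, true, false, false, true, false]), (-1, [true, false, true,
    true, false, true, false, false]), (-3, [true, false, true, true, true, false, false,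
    false]), (-2, [true, true, false, false, false, false, true, true]), (1, [true, true, false,
    false, false, true, false, true]), (5, [true, true, false, false, false, true, true,
    false]), (1, [true, true, false, false, true, false, false, true]), (1, [true, true, false,
    false, true, false, true, false]), (-4, [true, true, false, false, true, true, false,
    false]), (1, [true, true, false, true, false, false, false, true]), (-5, [true, true, false,
    true, false, false, true, false]), (2, [true, true, false, true, false, true, false,
    false]), (-1, [true, true, true, false, false, false, false, true]), (1, [true, true, true,
    false, false, false, true, false]), (-4, [true, true, true, false, false, true, false,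
    false]), (2, [true, true, true, false, true, false, false, false]), (2, [true, true, true,
    true, false, false, false, false])] := by decide +kernel

set_option maxHeartbeats 4000000 in
lemma eval_L2 (d : ℕ → ℚ) (α : ℚ) : pair 4 (lamOf L2) (vv d α) =
    ((d 0 * α) ^ 2 - 6 * (-10 * d 0 * d 2 + 6 * d 1 ^ 2 - α * d 0 * d 1)) / 2 := by
  rw [pair_lamOf, supL2]
  simp only [List.map_cons, List.map_nil, List.sum_cons, List.sum_nil, vv, V_nil1, V_nil2,
    V_false1, V_false2, V_true1, V_true2, Yc, Sc]
  norm_num [Nat.choose, Nat.factorial]
  ring

set_option maxHeartbeats 4000000 in
lemma eval_L3 (d : ℕ → ℚ) (α : ℚ) : pair 6 (lamOf L3) (vv d α) =
    -(d 0 * α) * (-10 * d 0 * d 2 + 6 * d 1 ^ 2 - α * d 0 * d 1) / 2 := by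
  rw [pair_lamOf, supL3]
  simp only [List.map_cons, List.map_nil, List.sum_cons, List.sum_nil, vv, V_nil1, V_nil2,
    V_false1, V_false2, V_true1, V_true2, Yc, Sc]
  norm_num [Nat.choose, Nat.factorial]
  ring

set_option maxHeartbeats 4000000 in
lemma eval_L4 (d : ℕ → ℚ) (α : ℚ) : pair 8 (lamOf L4) (vv d α) =
    (d 0 * α) ^ 4 / 12 := by
  rw [pair_lamOf, supL4]
  simp only [List.map_cons, List.map_nil, List.sum_cons, List.sum_nil, vv, V_nil1, V_nil2,
    V_false1, V_false2, V_true1, V_true2, Yc, Sc]
  norm_num [Nat.choose, Nat.factorial]
  ring

set_option maxHeartbeats 4000000 in
lemma eval_L4' (d : ℕ → ℚ) (α : ℚ) : pair 8 (lamOf L4') (vv d α) =
    (d 0 * α) ^ 2 * ((d 0 * α) ^ 2 + 6 * (-10 * d 0 * d 2 + 6 * d 1 ^ 2 - α * d 0 * d 1)) / 12 := by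
  rw [pair_lamOf, supL4']
  simp only [List.map_cons, List.map_nil, List.sum_cons, List.sum_nil, vv, V_nil1, V_nil2,
    V_false1, V_false2, V_true1, V_true2, Yc, Sc]
  norm_num [Nat.choose, Nat.factorial]
  ring

end W

end Pool.Agent.MP_2bfd0d_al
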