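import Pool.Agent.MP_2bfd0d_al.Affine

/-!
# From an integer-valued function with controlled sums to a Hughes counterexample
-/

namespace Pool.Agent.MP_2bfd0d_al

open Finset Polynomial

section

variable {F : Type} [Group F]

/-- The module generated by the translates of `phi` is finite if there are finitely many
translates. -/
lemma finite_mod (m : ℕ) (hm : 0 < m) (phi : F → ZMod m)
    (h : (Set.range fun y : F => tr m y phi).Finite) : Finite (mod m phi) := by
  have hfg : (mod m phi).FG := ⟨h.toFinset, by rw [Set.Finite.coe_toFinset]; rfl⟩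
  have hfg' : AddGroup.FG (mod m phi) := (AddGroup.fg_iff_addSubgroup_fg _).mpr hfg
  apply AddCommGroup.finite_of_fg_isAddTorsion
  intro f
  rw [isOfFinAddOrder_iff_nsmul_eq_zero]
  refine ⟨m, hm, ?_⟩
  apply Subtype.ext
  funext x
  simp

lemma choose_pred_mod (n : ℕ) (hp : (n + 1).Prime) (k : ℕ) (hk : k ≤ n) :
    ((n.choose k : ℕ) : ZMod (n + 1)) = (-1) ^ k := by
  induction k with
  | zero => simp
  | succ k ih =>
    have h1 := ih (by omega)
    have h2 : (n + 1) ∣ (n + 1).choose (k + 1) :=
      hp.dvd_choose_self (by omega) (by omega)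
    have h3 : (((n + 1).choose (k + 1) : ℕ) : ZMod (n + 1)) = 0 :=
      (ZMod.natCast_eq_zero_iff _ _).mpr h2
    rw [Nat.choose_succ_succ, Nat.cast_add, h1] at h3
    rw [pow_succ]
    linear_combination h3

/-- The sum of an integer-valued polynomial of degree at most `p - 1` over `0, ..., p - 1`,
modulo `p`. -/
lemma sum_mod (n : ℕ) (hp : (n + 1).Prime) (u : ℕ → ℤ) (P : ℚ[X]) (c : ℤ)
    (hdeg : P.natDegree ≤ n) (hc : P.coeff n = c) (hu : ∀ t : ℕ, (u t : ℚ) = P.eval (t : ℚ)) :
    ∑ t ∈ range (n + 1), ((u t : ℤ) : ZMod (n + 1)) = -(c : ZMod (n + 1)) := by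
  have : Fact (n + 1).Prime := ⟨hp⟩
  have key : (∑ k ∈ range (n + 1), ((-1 : ℤ) ^ (n - k) * n.choose k) * u k) = c * n.factorial := by
    have h1 : (fwdDiff (1 : ℚ))^[n] (fun x => P.eval x) 0 = P.coeff n * n.factorial := by
      rcases hdeg.lt_or_eq with h | h
      · have h2 := Polynomial.fwdDiff_iter_eq_zero_of_degree_lt h
        have h3 := congrFun h2 0
        rw [Polynomial.coeff_eq_zero_of_natDegree_lt h, zero_mul]
        exact h3
      · have h2 := Polynomial.fwdDiff_iter_degree_eq_factorial P
        rw [h] at h2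
        have h3 := congrFun h2 0
        have h4 : P.leadingCoeff = P.coeff n := by rw [← h]; rfl
        rw [h4] at h3
        simpa using h3
    rw [fwdDiff_iter_eq_sum_shift] at h1
    have h5 : ((∑ k ∈ range (n + 1), ((-1 : ℤ) ^ (n - k) * n.choose k) * u k : ℤ) : ℚ) =
        ((c * n.factorial : ℤ) : ℚ) := by
      push_cast
      rw [← hc, ← h1]
      apply sum_congr rfl
      intro k _
      rw [hu k]
      simp [zsmul_eq_mul]
    exact_mod_cast h5
  have key2 := congrArg (fun z : ℤ => (z : ZMod (n + 1))) key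
  simp only [Int.cast_sum, Int.cast_mul, Int.cast_pow, Int.cast_neg, Int.cast_one,
    Int.cast_natCast] at key2
  have hw : ((n.factorial : ℕ) : ZMod (n + 1)) = -1 := by
    have := ZMod.wilsons_lemma (n + 1)
    simpa using this
  rw [hw] at key2
  have h6 : ∀ k ∈ range (n + 1), ((-1 : ZMod (n + 1)) ^ (n - k) * (n.choose k : ℕ)) * (u k : ZMod (n + 1))
      = (u k : ZMod (n + 1)) := by
    intro k hk
    have hk' : k ≤ n := by
      have := mem_range.mp hk
      omega
    rw [choose_pred_mod n hp k hk', ← pow_add, Nat.sub_add_cancel hk']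
    have h7 : (-1 : ZMod (n + 1)) ^ n = 1 := by
      have := ZMod.pow_card_sub_one_eq_one (p := n + 1) (a := -1) (by simp)
      simpa using this
    rw [h7, one_mul]
  rw [sum_congr rfl h6] at key2
  rw [key2]
  ring

lemma p_mul_eq (p : ℕ) (u v : ℤ) (h : (u : ZMod p) = (v : ZMod p)) :
    (p : ZMod (p ^ 2)) * (u : ZMod (p ^ 2)) = (p : ZMod (p ^ 2)) * (v : ZMod (p ^ 2)) := by
  rw [ZMod.intCast_eq_intCast_iff_dvd_sub] at h
  obtain ⟨w, hw⟩ := h
  have hv : v = u + p * w := by linarith
  rw [hv]
  push_cast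
  have h2 : (p : ZMod (p ^ 2)) * (p : ZMod (p ^ 2)) = 0 := by
    have : ((p ^ 2 : ℕ) : ZMod (p ^ 2)) = 0 := ZMod.natCast_self _
    rw [← this]
    push_cast
    ring
  linear_combination -(w : ZMod (p ^ 2)) * h2

/-- Main reduction: an integer-valued function `Theta` on `F` whose sums over
`{x ^ t * h : t < p}` are `kappa * det (x, h) ^ (p - 1)` modulo `p` gives a counterexample. -/
theorem reduction (p : ℕ) (hp : p.Prime) (a b : F → ℤ)
    (ha : ∀ x y, a (x * y) = a x + a y) (hb : ∀ x y, b (x * y) = b x + b y)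
    (hsurj : ∀ u v : ℤ, ∃ x, a x = u ∧ b x = v)
    (Theta : F → ℤ) (kappa : ℤ) (hk : ¬ (p : ℤ) ∣ kappa)
    (HT : ∀ x h, ∑ t ∈ range p, (Theta (x ^ t * h) : ZMod p) =
      (kappa : ZMod p) * ((b x * a h - a x * b h : ℤ) : ZMod p) ^ (p - 1))
    (S : Type) [Finite S] (R : F → S)
    (hR : ∀ h y y', R y = R y' → R (h * y) = R (h * y'))
    (hRT : ∀ y y', R y = R y' → (Theta y : ZMod p) = (Theta y' : ZMod p))
    (hRa : ∀ y y', R y = R y' → (a y : ZMod p) = (a y' : ZMod p))
    (hRb : ∀ y y', R y = R y' → (b y : ZMod p) = (b y' : ZMod p))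
    (hRp : ∀ y, R (y ^ p ^ 2) = R 1) :
    ∃ (G : Type) (_ : Group G), Finite G ∧ IsPGroup p G ∧ hughes p G ≠ ⊥ ∧ hughes p G ≠ ⊤ ∧
      (hughes p G).index ≠ p := by
  classical
  have : Fact p.Prime := ⟨hp⟩
  let c : F →* Multiplicative (ZMod p × ZMod p) :=
    MonoidHom.mk' (fun x => Multiplicative.ofAdd ((a x : ZMod p), (b x : ZMod p))) (by
      intro x y
      rw [ha, hb, ← ofAdd_add]
      push_cast
      rfl)
  have hc : ∀ x, c x = 1 ↔ ((a x : ZMod p) = 0 ∧ (b x : ZMod p) = 0) := by
    intro x
    show Multiplicative.ofAdd ((a x : ZMod p), (b x : ZMod p)) = 1 ↔ _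
    rw [ofAdd_eq_one, Prod.mk_eq_zero]
  have hcsurj : Function.Surjective c := by
    intro y
    obtain ⟨u, hu⟩ := ZMod.intCast_surjective (Multiplicative.toAdd y).1
    obtain ⟨v, hv⟩ := ZMod.intCast_surjective (Multiplicative.toAdd y).2
    obtain ⟨x, hx1, hx2⟩ := hsurj u v
    refine ⟨x, ?_⟩
    show Multiplicative.ofAdd ((a x : ZMod p), (b x : ZMod p)) = y
    rw [hx1, hx2, hu, hv]
    rfl
  have hindex : c.ker.index = p ^ 2 := by
    rw [Subgroup.index_ker, MonoidHom.range_eq_top.mpr hcsurj, Subgroup.card_top,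
      Nat.card_congr Multiplicative.toAdd, Nat.card_prod, Nat.card_zmod, pow_two]
  have ha1 : a 1 = 0 := by
    have := ha 1 1
    rw [one_mul] at this
    linarith
  have hb1 : b 1 = 0 := by
    have := hb 1 1
    rw [one_mul] at this
    linarith
  have hapow : ∀ x (t : ℕ), a (x ^ t) = t * a x := by
    intro x t
    induction t with
    | zero => simp [ha1]
    | succ t ih => rw [pow_succ, ha, ih]; push_cast; ring
  have hbpow : ∀ x (t : ℕ), b (x ^ t) = t * b x := by
    intro x t
    induction t with
    | zero => simp [hb1]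
    | succ t ih => rw [pow_succ, hb, ih]; push_cast; ring
  let th : F → ℤ := fun g => Theta g + kappa * (if c g = 1 then 1 else 0)
  have hsum : ∀ x ∉ c.ker, ∀ h, ∑ t ∈ range p, ((th (x ^ t * h) : ℤ) : ZMod p) = kappa := by
    intro x hx h
    rw [MonoidHom.mem_ker, hc] at hx
    have e1 : ∑ t ∈ range p, ((th (x ^ t * h) : ℤ) : ZMod p) =
        ∑ t ∈ range p, (Theta (x ^ t * h) : ZMod p) +
        kappa * ∑ t ∈ range p, (if c (x ^ t * h) = 1 then (1 : ZMod p) else 0) := by
      rw [mul_sum, ← sum_add_distrib]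
      apply sum_congr rfl
      intro t _
      simp only [th]
      push_cast
      rfl
    rw [e1, HT]
    by_cases hdet : ((b x * a h - a x * b h : ℤ) : ZMod p) = 0
    · rw [hdet, zero_pow (by have := hp.one_lt; omega), mul_zero, zero_add]
      have hs : ∃ s : ZMod p, ∀ t : ℕ, c (x ^ t * h) = 1 ↔ (t : ZMod p) = s := by
        push_cast at hdet
        by_cases hax : (a x : ZMod p) = 0
        · have hbx : (b x : ZMod p) ≠ 0 := fun hh => hx ⟨hax, hh⟩
          have hah : (a h : ZMod p) = 0 := by
            rw [hax, zero_mul, sub_zero] at hdet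
            exact (mul_eq_zero.mp hdet).resolve_left hbx
          refine ⟨-(b h : ZMod p) / (b x : ZMod p), fun t => ?_⟩
          rw [hc, ha, hb, hapow, hbpow]
          push_cast
          rw [hax, hah, eq_div_iff hbx]
          constructor
          · rintro ⟨_, h2⟩
            linear_combination h2
          · intro h2
            exact ⟨by ring, by linear_combination h2⟩
        · refine ⟨-(a h : ZMod p) / (a x : ZMod p), fun t => ?_⟩
          rw [hc, ha, hb, hapow, hbpow]
          push_cast
          rw [eq_div_iff hax]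
          constructor
          · rintro ⟨h1, _⟩
            linear_combination h1
          · intro h2
            refine ⟨by linear_combination h2, ?_⟩
            have h3 : (a x : ZMod p) * (t * (b x : ZMod p) + (b h : ZMod p)) = 0 := by
              linear_combination (b x : ZMod p) * h2 - hdet
            exact (mul_eq_zero.mp h3).resolve_left hax
      obtain ⟨s, hs⟩ := hs
      have e2 : ∑ t ∈ range p, (if c (x ^ t * h) = 1 then (1 : ZMod p) else 0) = 1 := by
        rw [sum_eq_single s.val]
        · rw [if_pos]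
          rw [hs, ZMod.natCast_zmod_val]
        · intro t ht hts
          rw [if_neg]
          intro h1
          apply hts
          rw [hs] at h1
          rw [← h1, ZMod.val_cast_of_lt (mem_range.mp ht)]
        · intro h1
          exact absurd (mem_range.mpr (ZMod.val_lt s)) h1
      rw [e2, mul_one]
    · rw [ZMod.pow_card_sub_one_eq_one hdet, mul_one]
      have e2 : ∀ t ∈ range p, (if c (x ^ t * h) = 1 then (1 : ZMod p) else 0) = 0 := by
        intro t _
        rw [if_neg]
        intro h1
        apply hdet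
        rw [hc, ha, hb, hapow, hbpow] at h1
        obtain ⟨h2, h3⟩ := h1
        push_cast at h2 h3 ⊢
        linear_combination (b x : ZMod p) * h2 - (a x : ZMod p) * h3
      rw [sum_congr rfl e2]
      simp
  let phi : F → ZMod (p ^ 2) := fun g =>
    (kappa : ZMod (p ^ 2)) - (p : ZMod (p ^ 2)) * ((th g : ℤ) : ZMod (p ^ 2))
  have hcR : ∀ y y', R y = R y' → c y = c y' := by
    intro y y' h
    show Multiplicative.ofAdd ((a y : ZMod p), (b y : ZMod p)) =
      Multiplicative.ofAdd ((a y' : ZMod p), (b y' : ZMod p))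
    rw [hRa y y' h, hRb y y' h]
  have hphi : ∀ y y', R y = R y' → phi y = phi y' := by
    intro y y' h
    simp only [phi]
    congr 1
    apply p_mul_eq
    simp only [th]
    push_cast
    rw [hRT y y' h, hcR y y' h]
  apply exists_group hp rfl phi c.ker hindex
  · intro x hx h
    have e1 := p_mul_eq p (∑ t ∈ range p, th (x ^ t * h)) kappa (by
      rw [Int.cast_sum]
      exact hsum x hx h)
    simp only [phi]
    rw [sum_sub_distrib, sum_const, card_range, ← mul_sum, nsmul_eq_mul]
    rw [Int.cast_sum] at e1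
    rw [e1, sub_self]
  · intro h
    simp only [phi] at h
    apply hk
    have h2 : (p : ZMod (p ^ 2)) * (p : ZMod (p ^ 2)) = 0 := by
      have : ((p ^ 2 : ℕ) : ZMod (p ^ 2)) = 0 := ZMod.natCast_self _
      rw [← this]
      push_cast
      ring
    rw [mul_sub, ← mul_assoc, h2, zero_mul, sub_zero] at h
    have h3 : (((p : ℤ) * kappa : ℤ) : ZMod (p ^ 2)) = 0 := by
      push_cast
      exact h
    rw [ZMod.intCast_zmod_eq_zero_iff_dvd] at h3
    push_cast at h3
    rw [pow_two] at h3
    exact Int.dvd_of_mul_dvd_mul_left (by exact_mod_cast hp.pos.ne') h3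
  · apply finite_mod _ (pow_pos hp.pos 2)
    have hfac : ∀ y y', R y = R y' → tr (p ^ 2) y phi = tr (p ^ 2) y' phi := by
      intro y y' h
      funext g
      exact hphi _ _ (hR g y y' h)
    let f : S → (F → ZMod (p ^ 2)) := fun s =>
      if h : ∃ y, R y = s then tr (p ^ 2) h.choose phi else 0
    apply Set.Finite.subset (Set.finite_range f)
    rintro _ ⟨y, rfl⟩
    refine ⟨R y, ?_⟩
    have hex : ∃ y', R y' = R y := ⟨y, rfl⟩
    simp only [f, dif_pos hex]
    exact hfac _ _ hex.choose_spec
  · intro x h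
    apply hphi
    have h1 := hR h _ _ (hRp x)
    rwa [mul_one] at h1

end

end Pool.Agent.MP_2bfd0d_al
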