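import Pool.Agent.MP_2bfd0d_al.Integral
import Pool.Agent.MP_2bfd0d_al.Reduction

/-!
# Assembly
-/

namespace Pool.Agent.MP_2bfd0d_al

open Finset Polynomial

/-- `u` is given by a polynomial of degree at most `n` with coefficient of degree `n` equal
to `c`. -/
def PA (n : ℕ) (c : ℚ) (u : ℕ → ℤ) : Prop :=
  ∃ P : ℚ[X], P.natDegree ≤ n ∧ P.coeff n = c ∧ ∀ t : ℕ, (u t : ℚ) = P.eval (t : ℚ)

lemma PA.mul {m n : ℕ} {c d : ℚ} {u v : ℕ → ℤ} (hu : PA m c u) (hv : PA n d v) :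
    PA (m + n) (c * d) (fun t => u t * v t) := by
  obtain ⟨P, hP1, hP2, hP3⟩ := hu
  obtain ⟨Q, hQ1, hQ2, hQ3⟩ := hv
  refine ⟨P * Q, natDegree_mul_le_of_le hP1 hQ1, ?_, ?_⟩
  · rw [coeff_mul_add_eq_of_natDegree_le hP1 hQ1, hP2, hQ2]
  · intro t
    rw [eval_mul, ← hP3, ← hQ3]
    push_cast
    rfl

lemma PA.add {n : ℕ} {c d : ℚ} {u v : ℕ → ℤ} (hu : PA n c u) (hv : PA n d v) :
    PA n (c + d) (fun t => u t + v t) := by
  obtain ⟨P, hP1, hP2, hP3⟩ := hu
  obtain ⟨Q, hQ1, hQ2, hQ3⟩ := hv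
  refine ⟨P + Q, natDegree_add_le_of_degree_le hP1 hQ1, ?_, ?_⟩
  · rw [coeff_add, hP2, hQ2]
  · intro t
    rw [eval_add, ← hP3, ← hQ3]
    push_cast
    rfl

lemma PA.const (k : ℤ) : PA 0 k (fun _ => k) := by
  refine ⟨C (k : ℚ), by simp, by simp, ?_⟩
  intro t
  simp

lemma PA.pow {n : ℕ} {c : ℚ} {u : ℕ → ℤ} (hu : PA n c u) (k : ℕ) :
    PA (n * k) (c ^ k) (fun t => u t ^ k) := by
  induction k with
  | zero =>
    have := PA.const 1
    simpa using this
  | succ k ih =>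
    have := ih.mul hu
    simp only [pow_succ]
    rw [Nat.mul_succ]
    exact this

lemma PA.congr {n m : ℕ} {c d : ℚ} {u : ℕ → ℤ} (hu : PA n c u) (h1 : n = m) (h2 : c = d) :
    PA m d u := by
  subst h1 h2
  exact hu

namespace W

/-- The determinant of the abelianisations of `x` and `h`. -/
def det (x h : F2) : ℤ := ex true x * ex false h - ex false x * ex true h

/-- The function of degree 4. -/
noncomputable def Th4 (x : F2) : ℤ := Fn 4 L4 x

/-- The function of degree 6. -/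
noncomputable def Th6 (x : F2) : ℤ := Fn 2 L2 x * Fn 4 L4' x + 8 * (Fn 3 L3 x) ^ 2

lemma Th_spec (x h : F2) :
    PA 4 (2 * (det x h : ℚ) ^ 4) (fun t => Th4 (x ^ t * h)) ∧
    PA 6 (2 * (det x h : ℚ) ^ 6) (fun t => Th6 (x ^ t * h)) := by
  obtain ⟨d, α, hdet, hk⟩ := key x h
  have hc : d 0 * α = (det x h : ℚ) := by
    rw [hdet]
    unfold det
    push_cast
    rfl
  set c : ℚ := (det x h : ℚ) with hcdef
  set w : ℚ := -10 * d 0 * d 2 + 6 * d 1 ^ 2 - α * d 0 * d 1 with hw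
  have gen : ∀ (n : ℕ) (L : List (ℤ × TLt)), Inv n (lamOf L) →
      PA n ((n.factorial : ℚ) ^ 2 * (pair (2 * n) (lamOf L) (vv d α) / (n.factorial : ℕ)))
        (fun t => Fn n L (x ^ t * h)) := by
    intro n L hL
    obtain ⟨P, hP1, hP2, hP3⟩ := hk n (lamOf L) hL
    refine ⟨C ((n.factorial : ℚ) ^ 2) * P, (natDegree_C_mul_le _ _).trans hP1, ?_, ?_⟩
    · rw [coeff_C_mul, hP2]
    · intro t
      rw [Fn_eq n L hL, hP3, eval_mul, eval_C]
  have p2 : PA 2 (c ^ 2 - 6 * w) (fun t => Fn 2 L2 (x ^ t * h)) := by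
    refine (gen 2 L2 inv_L2).congr rfl ?_
    rw [show 2 * 2 = 4 from rfl, eval_L2, hc]
    norm_num [Nat.factorial]
    ring
  have p3 : PA 3 (-(3 * c * w)) (fun t => Fn 3 L3 (x ^ t * h)) := by
    refine (gen 3 L3 inv_L3).congr rfl ?_
    rw [show 2 * 3 = 6 from rfl, eval_L3, hc]
    norm_num [Nat.factorial]
    ring
  have p4 : PA 4 (2 * c ^ 4) (fun t => Fn 4 L4 (x ^ t * h)) := by
    refine (gen 4 L4 inv_L4).congr rfl ?_
    rw [show 2 * 4 = 8 from rfl, eval_L4, hc]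
    norm_num [Nat.factorial]
    ring
  have p4' : PA 4 (2 * c ^ 2 * (c ^ 2 + 6 * w)) (fun t => Fn 4 L4' (x ^ t * h)) := by
    refine (gen 4 L4' inv_L4').congr rfl ?_
    rw [show 2 * 4 = 8 from rfl, eval_L4', hc]
    norm_num [Nat.factorial]
    ring
  refine ⟨p4, ?_⟩
  have h1 := p2.mul p4'
  have h2 := (PA.const 8).mul (p3.pow 2)
  have h3 := (h1.congr (show 2 + 4 = 6 from rfl) rfl).add (h2.congr (show 0 + 3 * 2 = 6 from rfl) rfl)
  refine h3.congr rfl ?_
  push_cast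
  ring

/-- The function of degree `4 a + 6 b`. -/
noncomputable def Th (a b : ℕ) (x : F2) : ℤ := Th4 x ^ a * Th6 x ^ b

lemma Th_PA (a b : ℕ) (x h : F2) :
    PA (4 * a + 6 * b) (((2 ^ (a + b) * (det x h) ^ (4 * a + 6 * b) : ℤ)) : ℚ)
      (fun t => Th a b (x ^ t * h)) := by
  obtain ⟨h4, h6⟩ := Th_spec x h
  refine ((h4.pow a).mul (h6.pow b)).congr rfl ?_
  push_cast
  rw [mul_pow, mul_pow, ← pow_mul, ← pow_mul, pow_add, pow_add]
  ring

/-- Words of length at most 8. -/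
abbrev Wd : Type := {w : List Bool // w.length ≤ 8}

instance : Finite Wd := List.finite_length_le Bool 8

/-- The reduction modulo `p` of the coefficients of words of length at most 8. -/
noncomputable def Rd (p : ℕ) (x : F2) : Wd → ZMod p := fun w => (cz x w.1 : ZMod p)

lemma Rd_mul (p : ℕ) (h y y' : F2) (hy : Rd p y = Rd p y') : Rd p (h * y) = Rd p (h * y') := by
  funext w
  unfold Rd
  rw [cz_mul, cz_mul]
  push_cast
  apply sum_congr rfl
  intro i _
  have h1 : w.1.length ≤ 8 := w.2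
  have h2 : (cz y (w.1.drop i) : ZMod p) = (cz y' (w.1.drop i) : ZMod p) :=
    congrFun hy ⟨w.1.drop i, by rw [List.length_drop]; omega⟩
  rw [h2]

lemma Rd_Fn (p n : ℕ) (hn : 2 * n ≤ 8) (L : List (ℤ × TLt)) (y y' : F2)
    (hy : Rd p y = Rd p y') : (Fn n L y : ZMod p) = (Fn n L y' : ZMod p) := by
  have key : ∀ l : List (ℤ × List Bool), (∀ q ∈ l, q.2.length ≤ 8) →
      (((l.map (fun q => q.1 * cz y q.2)).sum : ℤ) : ZMod p) =
      (((l.map (fun q => q.1 * cz y' q.2)).sum : ℤ) : ZMod p) := by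
    intro l hl
    induction l with
    | nil => rfl
    | cons q l ih =>
      rw [List.map_cons, List.map_cons, List.sum_cons, List.sum_cons, Int.cast_add, Int.cast_add,
        ih (fun q hq => hl q (List.mem_cons_of_mem _ hq)), Int.cast_mul, Int.cast_mul]
      have h2 : (cz y q.2 : ZMod p) = (cz y' q.2 : ZMod p) :=
        congrFun hy ⟨q.2, hl q List.mem_cons_self⟩
      rw [h2]
  apply key
  intro q hq
  have := (mem_supList hq).1
  omega

lemma Rd_Th (p a b : ℕ) (y y' : F2) (hy : Rd p y = Rd p y') :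
    (Th a b y : ZMod p) = (Th a b y' : ZMod p) := by
  unfold Th Th4 Th6
  push_cast
  rw [Rd_Fn p 4 (by norm_num) L4 y y' hy, Rd_Fn p 4 (by norm_num) L4' y y' hy,
    Rd_Fn p 2 (by norm_num) L2 y y' hy, Rd_Fn p 3 (by norm_num) L3 y y' hy]

lemma Rd_ex (p : ℕ) (c : Bool) (y y' : F2) (hy : Rd p y = Rd p y') :
    (ex c y : ZMod p) = (ex c y' : ZMod p) := by
  rw [← cz_letter, ← cz_letter]
  exact congrFun hy ⟨[c], by simp⟩

lemma IntS.sub_one {f : W ℚ} (hf : IntS f) : IntS (f - 1) := by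
  intro w
  obtain ⟨z1, h1⟩ := hf w
  obtain ⟨z2, h2⟩ := IntS_one w
  refine ⟨z1 - z2, ?_⟩
  rw [sub_apply, mul_sub, h1, h2]
  push_cast
  rfl

lemma IntS.pow {f : W ℚ} (hf : IntS f) (k : ℕ) : IntS (f ^ k) := by
  induction k with
  | zero => rw [pow_zero]; exact IntS_one
  | succ k ih => rw [pow_succ]; exact ih.mul hf

lemma pow_vanish (y : W ℚ) (hy : y [] = 0) (k : ℕ) (w : List Bool) (hw : w.length < k) :
    (y ^ k) w = 0 := by
  induction k generalizing w with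
  | zero => omega
  | succ k ih =>
    rw [pow_succ', mul_eq_sum]
    apply sum_eq_zero
    intro i hi
    rcases Nat.eq_zero_or_pos i with h0 | h0
    · rw [h0, List.take_zero, hy, zero_mul]
    · rw [ih (w.drop i), mul_zero]
      rw [List.length_drop]
      have := mem_range.mp hi
      omega

lemma rho_pow_expand (x : F2) (t : ℕ) (w : List Bool) :
    rho (x ^ t) w = ∑ k ∈ range (t + 1), ((t.choose k : ℕ) : ℚ) * ((rho x - 1) ^ k) w := by
  have h1 : rho x ^ t = ∑ k ∈ range (t + 1), ((t.choose k : ℕ) : ℚ) • ((rho x - 1) ^ k) := by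
    have h2 : rho x ^ t = ((rho x - 1) + 1) ^ t := by rw [sub_add_cancel]
    rw [h2, (Commute.one_right (rho x - 1)).add_pow]
    apply sum_congr rfl
    intro k _
    rw [one_pow, mul_one, Nat.cast_smul_eq_nsmul, nsmul_eq_mul]
    rw [← (Nat.cast_commute (t.choose k) ((rho x - 1) ^ k)).eq]
  rw [rho_pow, h1]
  have h3 : ∀ (s : Finset ℕ) (f : ℕ → W ℚ), (∑ k ∈ s, f k) w = ∑ k ∈ s, f k w := by
    intro s f
    classical
    induction s using Finset.induction_on with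
    | empty => simp
    | insert a s ha ih => rw [sum_insert ha, sum_insert ha, add_apply, ih]
  rw [h3]
  rfl

lemma Rd_pow (p : ℕ) (hp : p.Prime) (h3 : 3 < p) (y : F2) : Rd p (y ^ p ^ 2) = Rd p 1 := by
  funext w
  obtain ⟨w, hw⟩ := w
  unfold Rd
  show ((cz (y ^ p ^ 2) w : ℤ) : ZMod p) = ((cz 1 w : ℤ) : ZMod p)
  have hint : ∀ k : ℕ, ∃ z : ℤ, (fac w : ℚ) * ((rho y - 1) ^ k : W ℚ) w = z :=
    fun k => ((IntS_rho y).sub_one.pow k) w
  choose z hz using hint
  have e1 : cz (y ^ p ^ 2) w = ∑ k ∈ range (p ^ 2 + 1), (((p ^ 2).choose k : ℕ) : ℤ) * z k := by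
    have : ((cz (y ^ p ^ 2) w : ℤ) : ℚ) =
        ((∑ k ∈ range (p ^ 2 + 1), (((p ^ 2).choose k : ℕ) : ℤ) * z k : ℤ) : ℚ) := by
      rw [← cz_spec, rho_pow_expand, mul_sum]
      push_cast
      apply sum_congr rfl
      intro k _
      rw [← hz]
      ring
    exact_mod_cast this
  have e2 : z 0 = cz 1 w := by
    have : ((z 0 : ℤ) : ℚ) = ((cz 1 w : ℤ) : ℚ) := by
      rw [← hz, ← cz_spec, pow_zero, rho_one]
    exact_mod_cast this
  have h8 : 8 < p ^ 2 := by nlinarith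
  rw [e1, sum_range_succ', Int.cast_add, Int.cast_sum]
  rw [sum_eq_zero]
  · simp [e2]
  · intro k hk
    have hk' := mem_range.mp hk
    by_cases hkw : w.length < k + 1
    · have h0 : z (k + 1) = 0 := by
        have h1 := hz (k + 1)
        rw [pow_vanish (rho y - 1) (by rw [sub_apply, rho_nil]; simp) (k + 1) w hkw,
          mul_zero] at h1
        exact_mod_cast h1.symm
      rw [h0]
      simp
    · have hd : p ∣ (p ^ 2).choose (k + 1) := hp.dvd_choose_pow (by omega) (by omega)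
      rw [Int.cast_mul, Int.cast_natCast, (ZMod.natCast_eq_zero_iff _ _).mpr hd, zero_mul]

end W

open W in
/-- The Hughes conjecture fails for every prime `p > 3`, with a finite `p`-group. -/
theorem hughes_fails (p : ℕ) (hp : p.Prime) (h3 : 3 < p) :
    ∃ (G : Type) (_ : Group G), Finite G ∧ IsPGroup p G ∧ hughes p G ≠ ⊥ ∧ hughes p G ≠ ⊤ ∧
      (hughes p G).index ≠ p := by
  obtain ⟨a, b, hab⟩ : ∃ a b : ℕ, p = (4 * a + 6 * b) + 1 := by
    have hodd : p % 2 = 1 := hp.eq_two_or_odd.resolve_left (by omega)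
    by_cases h4 : p % 4 = 1
    · exact ⟨p / 4, 0, by omega⟩
    · exact ⟨(p - 7) / 4, 1, by omega⟩
  set n := 4 * a + 6 * b with hn
  subst hab
  have : Fact (n + 1).Prime := ⟨hp⟩
  refine reduction (n + 1) hp (ex false) (ex true) (ex_mul false) (ex_mul true) ex_surj
    (Th a b) (-(2 ^ (a + b))) ?_ ?_ (Wd → ZMod (n + 1)) (Rd (n + 1)) ?_ ?_ ?_ ?_ ?_
  · intro hdvd
    rw [dvd_neg] at hdvd
    have h1 : ((n + 1 : ℕ) : ℤ) ∣ ((2 ^ (a + b) : ℕ) : ℤ) := by exact_mod_cast hdvd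
    have h2 : n + 1 ∣ 2 ^ (a + b) := Int.natCast_dvd_natCast.mp h1
    have h5 := hp.dvd_of_dvd_pow h2
    have h6 := Nat.le_of_dvd (by norm_num) h5
    omega
  · intro x h
    obtain ⟨P, hP1, hP2, hP3⟩ := Th_PA a b x h
    have hs := sum_mod n hp (fun t => Th a b (x ^ t * h)) P
      (2 ^ (a + b) * (det x h) ^ n) hP1 hP2 hP3
    rw [hs]
    unfold det
    push_cast
    ring
  · exact Rd_mul (n + 1)
  · exact Rd_Th (n + 1) a b
  · exact Rd_ex (n + 1) false
  · exact Rd_ex (n + 1) true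
  · exact Rd_pow (n + 1) hp h3

end Pool.Agent.MP_2bfd0d_al
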