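import Pool.Agent.MP_2bfd0d_al.EvalConcrete

/-!
# Integrality of the coefficients
-/

namespace Pool.Agent.MP_2bfd0d_al

open Finset

namespace W

lemma mul_eq_sum {K : Type} [CommRing K] (f g : W K) (w : List Bool) :
    (f * g) w = ∑ i ∈ range (w.length + 1), f (w.take i) * g (w.drop i) := by
  induction w generalizing f with
  | nil => simp
  | cons c w ih =>
    rw [mul_cons, ih, List.length_cons, sum_range_succ' _ (w.length + 1)]
    simp only [List.take_succ_cons, List.drop_succ_cons, List.take_zero, List.drop_zero, D_apply]
    rw [add_comm]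

/-- The product of the factorials of the numbers of letters. -/
def fac (w : List Bool) : ℕ := (w.count false).factorial * (w.count true).factorial

/-- The binomial factor attached to a splitting. -/
def bin (u v : List Bool) : ℕ :=
  ((u ++ v).count false).choose (u.count false) * ((u ++ v).count true).choose (u.count true)

lemma fac_append (u v : List Bool) : fac (u ++ v) = bin u v * (fac u * fac v) := by
  unfold fac bin
  have h1 := Nat.choose_mul_factorial_mul_factorial
    (show u.count false ≤ (u ++ v).count false by rw [List.count_append]; omega)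
  have h2 := Nat.choose_mul_factorial_mul_factorial
    (show u.count true ≤ (u ++ v).count true by rw [List.count_append]; omega)
  have h3 : (u ++ v).count false - u.count false = v.count false := by
    rw [List.count_append]; omega
  have h4 : (u ++ v).count true - u.count true = v.count true := by
    rw [List.count_append]; omega
  rw [h3] at h1
  rw [h4] at h2
  rw [← h1, ← h2]
  ring

/-- Integrality property. -/
def IntS (f : W ℚ) : Prop := ∀ w : List Bool, ∃ z : ℤ, (fac w : ℚ) * f w = z

lemma IntS.mul {f g : W ℚ} (hf : IntS f) (hg : IntS g) : IntS (f * g) := by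
  intro w
  choose zf hzf using hf
  choose zg hzg using hg
  refine ⟨∑ i ∈ range (w.length + 1), (bin (w.take i) (w.drop i) : ℤ) *
    (zf (w.take i) * zg (w.drop i)), ?_⟩
  rw [mul_eq_sum, mul_sum]
  push_cast
  apply sum_congr rfl
  intro i _
  rw [← hzf, ← hzg]
  have h := fac_append (w.take i) (w.drop i)
  rw [List.take_append_drop] at h
  rw [h]
  push_cast
  ring

lemma IntS_one : IntS 1 := by
  intro w
  cases w with
  | nil => exact ⟨1, by simp [fac]⟩
  | cons c w => exact ⟨0, by simp⟩

lemma phi_eq (c : Bool) (F : ℕ → ℚ) (w : List Bool) :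
    phi c F w = if w = List.replicate w.length c then F w.length else 0 := by
  induction w generalizing F with
  | nil => simp
  | cons a w ih =>
    rw [phi_cons, ih]
    by_cases h : a = c
    · subst h
      simp [List.replicate_succ]
    · simp [List.replicate_succ, h]

lemma IntS_E (c : Bool) (s : ℤ) : IntS (E c s) := by
  intro w
  unfold E
  rw [phi_eq]
  by_cases h : w = List.replicate w.length c
  · rw [if_pos h]
    refine ⟨s ^ w.length, ?_⟩
    have h1 : fac w = w.length.factorial := by
      unfold fac
      rw [h]
      cases c <;> simp [List.count_replicate]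
    have h2 : (w.length.factorial : ℚ) ≠ 0 := by exact_mod_cast Nat.factorial_ne_zero _
    rw [h1]
    push_cast
    field_simp
  · rw [if_neg h]
    exact ⟨0, by simp⟩

lemma IntS_rho (x : F2) : IntS (rho x) := by
  induction x using FreeGroup.induction_on with
  | C1 => rw [rho_one]; exact IntS_one
  | of c =>
    rw [rho_of]
    have := IntS_E c 1
    simpa using this
  | inv_of c _ =>
    rw [rho_of_inv]
    have := IntS_E c (-1)
    simpa using this
  | mul x y hx hy => rw [rho_mul]; exact hx.mul hy

/-- The integral coefficients. -/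
noncomputable def cz (x : F2) (w : List Bool) : ℤ := (IntS_rho x w).choose

lemma cz_spec (x : F2) (w : List Bool) : (fac w : ℚ) * rho x w = cz x w :=
  (IntS_rho x w).choose_spec

lemma cz_mul (x y : F2) (w : List Bool) : cz (x * y) w =
    ∑ i ∈ range (w.length + 1), (bin (w.take i) (w.drop i) : ℤ) *
      (cz x (w.take i) * cz y (w.drop i)) := by
  have h : ((cz (x * y) w : ℤ) : ℚ) = ((∑ i ∈ range (w.length + 1),
      (bin (w.take i) (w.drop i) : ℤ) * (cz x (w.take i) * cz y (w.drop i)) : ℤ) : ℚ) := by
    rw [← cz_spec, rho_mul, mul_eq_sum, mul_sum]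
    push_cast
    apply sum_congr rfl
    intro i _
    rw [← cz_spec, ← cz_spec]
    have h := fac_append (w.take i) (w.drop i)
    rw [List.take_append_drop] at h
    rw [h]
    push_cast
    ring
  exact_mod_cast h

lemma cz_letter (c : Bool) (x : F2) : cz x [c] = ex c x := by
  have h : ((cz x [c] : ℤ) : ℚ) = ((ex c x : ℤ) : ℚ) := by
    rw [← cz_spec, rho_letter]
    cases c <;> simp [fac]
  exact_mod_cast h

/-- The integer-valued function attached to a combination of matchings. -/
noncomputable def Fn (n : ℕ) (L : List (ℤ × TLt)) (x : F2) : ℤ :=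
  ((supList (2 * n) L).map (fun p => p.1 * cz x p.2)).sum

lemma mem_supList {m : ℕ} {L : List (ℤ × TLt)} {p : ℤ × List Bool} (h : p ∈ supList m L) :
    p.2.length = m ∧ (lamOf L : W ℚ) p.2 ≠ 0 := by
  unfold supList at h
  rw [List.mem_map] at h
  obtain ⟨w, hw, rfl⟩ := h
  rw [List.mem_filter] at hw
  obtain ⟨hw1, hw2⟩ := hw
  constructor
  · have : ∀ m, ∀ w ∈ allWords m, w.length = m := by
      intro m
      induction m with
      | zero => intro w hw; simp [allWords] at hw; simp [hw]
      | succ m ih =>
        intro w hw
        simp only [allWords, List.mem_append, List.mem_map] at hw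
        rcases hw with ⟨u, hu, rfl⟩ | ⟨u, hu, rfl⟩ <;> simp [ih u hu]
    exact this m w hw1
  · rw [lamOf_apply]
    simpa using hw2

lemma Fn_eq (n : ℕ) (L : List (ℤ × TLt)) (hL : Inv n (lamOf L)) (x : F2) :
    ((Fn n L x : ℤ) : ℚ) = (n.factorial : ℚ) ^ 2 * pair (2 * n) (lamOf L) (rho x) := by
  rw [pair_lamOf, Fn]
  have key : ∀ l : List (ℤ × List Bool), (∀ p ∈ l, fac p.2 = n.factorial ^ 2) →
      (((l.map (fun p => p.1 * cz x p.2)).sum : ℤ) : ℚ) = (n.factorial : ℚ) ^ 2 *
        (l.map (fun p => ((p.1 : ℤ) : ℚ) * rho x p.2)).sum := by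
    intro l hl
    induction l with
    | nil => simp
    | cons p l ih =>
      rw [List.map_cons, List.map_cons, List.sum_cons, List.sum_cons, Int.cast_add,
        ih (fun q hq => hl q (List.mem_cons_of_mem _ hq)), Int.cast_mul, ← cz_spec,
        hl p List.mem_cons_self]
      push_cast
      ring
  apply key
  intro p hp
  obtain ⟨h1, h2⟩ := mem_supList hp
  have h3 := hL.supp p.2 h1 h2
  have h4 : p.2.count false + p.2.count true = p.2.length := List.count_false_add_count_true p.2
  unfold fac
  rw [h3, show p.2.count false = n by omega]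
  ring

end W

end Pool.Agent.MP_2bfd0d_al
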