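import Pool.Agent.MP_2bfd0d_al.Eval

/-!
# Polynomiality of invariant functionals along cyclic subgroups
-/

namespace Pool.Agent.MP_2bfd0d_al

open Finset Polynomial

namespace W

/-- A functional on words of length `2 n` which is invariant under `SL_2` and supported on words
with `n` letters `A` and `n` letters `B`. -/
structure Inv (n : ℕ) (lam : W ℚ) : Prop where
  inv : ∀ g : Bool → Bool → ℚ, g false false * g true true - g false true * g true false = 1 →
    T g lam = lam
  supp : ∀ w : List Bool, w.length = 2 * n → lam w ≠ 0 → w.count true = n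

lemma T_nil' (g : Bool → Bool → ℚ) (f : W ℚ) : T g f [] = f [] := rfl

lemma rho_letter (c : Bool) (x : F2) : rho x [c] = ex c x := by
  have h := congrArg (fun f : W ℚ => f []) (del_rho c x)
  simpa [rho_nil] using h

/-- The polynomial with values `∑ k ≤ n, choose t k * c k`. -/
noncomputable def polyOf (n : ℕ) (c : ℕ → ℚ) : ℚ[X] :=
  ∑ k ∈ range (n + 1), C (c k / (k.factorial : ℕ)) * descPochhammer ℚ k

lemma polyOf_natDegree (n : ℕ) (c : ℕ → ℚ) : (polyOf n c).natDegree ≤ n := by
  unfold polyOf
  apply natDegree_sum_le_of_forall_le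
  intro k hk
  refine (natDegree_C_mul_le _ _).trans ?_
  rw [descPochhammer_natDegree]
  have := mem_range.mp hk
  omega

lemma polyOf_coeff (n : ℕ) (c : ℕ → ℚ) : (polyOf n c).coeff n = c n / (n.factorial : ℕ) := by
  unfold polyOf
  rw [finsetSum_coeff, sum_range_succ, sum_eq_zero, zero_add, coeff_C_mul]
  · have h1 : (descPochhammer ℚ n).coeff n = 1 := by
      have h2 := (monic_descPochhammer ℚ n).coeff_natDegree
      rwa [descPochhammer_natDegree] at h2
    rw [h1, mul_one]
  · intro k hk
    rw [coeff_C_mul, coeff_eq_zero_of_natDegree_lt, mul_zero]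
    rw [descPochhammer_natDegree]
    exact mem_range.mp hk

lemma polyOf_eval (n : ℕ) (c : ℕ → ℚ) (t : ℕ) :
    (polyOf n c).eval (t : ℚ) = ∑ k ∈ range (n + 1), (t.choose k : ℚ) * c k := by
  unfold polyOf
  rw [eval_finsetSum]
  apply sum_congr rfl
  intro k _
  rw [eval_mul, eval_C, descPochhammer_eval_eq_descFactorial, Nat.descFactorial_eq_factorial_mul_choose]
  have h4 : (k.factorial : ℚ) ≠ 0 := by exact_mod_cast Nat.factorial_ne_zero _
  push_cast
  field_simp

lemma pair_sum_right {ι : Type} (s : Finset ι) (m : ℕ) (l : W ℚ) (f : ι → W ℚ) :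
    pair m l (∑ i ∈ s, f i) = ∑ i ∈ s, pair m l (f i) := by
  classical
  induction s using Finset.induction_on with
  | empty => simp [pair_zero_right]
  | insert a s ha ih => rw [sum_insert ha, sum_insert ha, pair_add_right, ih]

/-- Polynomiality from the vanishing of higher differences. -/
lemma poly_of_pair (n m : ℕ) (lam r s : W ℚ)
    (hv : ∀ k, n < k → pair m lam ((r - 1) ^ k * s) = 0) :
    ∃ P : ℚ[X], P.natDegree ≤ n ∧ P.coeff n = pair m lam ((r - 1) ^ n * s) / (n.factorial : ℕ) ∧
      ∀ t : ℕ, pair m lam (r ^ t * s) = P.eval (t : ℚ) := by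
  refine ⟨polyOf n (fun k => pair m lam ((r - 1) ^ k * s)), polyOf_natDegree _ _,
    polyOf_coeff _ _, ?_⟩
  intro t
  rw [polyOf_eval]
  have h1 : r ^ t * s = ∑ k ∈ range (t + 1), ((t.choose k : ℕ) : ℚ) • ((r - 1) ^ k * s) := by
    have h2 : r ^ t = ((r - 1) + 1) ^ t := by rw [sub_add_cancel]
    rw [h2, (Commute.one_right (r - 1)).add_pow, sum_mul]
    apply sum_congr rfl
    intro k _
    rw [one_pow, mul_one, Nat.cast_smul_eq_nsmul, nsmul_eq_mul]
    rw [← (Nat.cast_commute (t.choose k) ((r - 1) ^ k)).eq, mul_assoc]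
  rw [h1, pair_sum_right]
  simp only [pair_smul_right]
  have h3 : ∀ N, t ≤ N → ∑ k ∈ range (t + 1), ((t.choose k : ℕ) : ℚ) *
      pair m lam ((r - 1) ^ k * s) = ∑ k ∈ range (N + 1), ((t.choose k : ℕ) : ℚ) *
      pair m lam ((r - 1) ^ k * s) := by
    intro N hN
    apply sum_subset
    · intro k hk
      rw [mem_range] at hk ⊢
      omega
    · intro k _ hk
      rw [mem_range] at hk
      rw [Nat.choose_eq_zero_of_lt (by omega), Nat.cast_zero, zero_mul]
  have h4 : ∀ N, n ≤ N → ∑ k ∈ range (n + 1), ((t.choose k : ℕ) : ℚ) *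
      pair m lam ((r - 1) ^ k * s) = ∑ k ∈ range (N + 1), ((t.choose k : ℕ) : ℚ) *
      pair m lam ((r - 1) ^ k * s) := by
    intro N hN
    apply sum_subset
    · intro k hk
      rw [mem_range] at hk ⊢
      omega
    · intro k _ hk
      rw [mem_range] at hk
      rw [hv k (by omega), mul_zero]
  rw [h3 (max t n) (le_max_left _ _), h4 (max t n) (le_max_right _ _)]

/-- For every `x, h` there are `d, α` with `d 0 * α = det (x, h)` such that every invariant
functional is polynomial along `t ↦ x ^ t * h`, with leading coefficient given by `vv d α`. -/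
theorem key (x h : F2) : ∃ (d : ℕ → ℚ) (α : ℚ),
    d 0 * α = (ex true x : ℚ) * ex false h - ex false x * ex true h ∧
    ∀ (n : ℕ) (lam : W ℚ), Inv n lam → ∃ P : ℚ[X], P.natDegree ≤ n ∧
      P.coeff n = pair (2 * n) lam (vv d α) / (n.factorial : ℕ) ∧
      ∀ t : ℕ, pair (2 * n) lam (rho (x ^ t * h)) = P.eval (t : ℚ) := by
  set a : ℚ := (ex false x : ℚ) with ha
  set b : ℚ := (ex true x : ℚ) with hb
  obtain ⟨g, hg, hrow, hdet⟩ : ∃ g : Bool → Bool → ℚ,
      g false false * g true true - g false true * g true false = 1 ∧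
      g false false * a + g false true * b = 0 ∧
      (g true false * a + g true true * b) *
        (g false false * (ex false h : ℚ) + g false true * (ex true h : ℚ)) =
        b * (ex false h : ℚ) - a * (ex true h : ℚ) := by
    by_cases hN : a ^ 2 + b ^ 2 = 0
    · have ha0 : a = 0 := by nlinarith [sq_nonneg a, sq_nonneg b]
      have hb0 : b = 0 := by nlinarith [sq_nonneg a, sq_nonneg b]
      refine ⟨fun i j => if i = j then 1 else 0, ?_, ?_, ?_⟩
      · simp
      · simp [ha0]
      · simp [ha0, hb0]
    · refine ⟨fun i j => match i, j with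
        | false, false => b / (a ^ 2 + b ^ 2)
        | false, true => - a / (a ^ 2 + b ^ 2)
        | true, false => a
        | true, true => b, ?_, ?_, ?_⟩
      · show b / (a ^ 2 + b ^ 2) * b - (- a / (a ^ 2 + b ^ 2)) * a = 1
        field_simp
        ring
      · show b / (a ^ 2 + b ^ 2) * a + (- a / (a ^ 2 + b ^ 2)) * b = 0
        ring
      · show (a * a + b * b) * (b / (a ^ 2 + b ^ 2) * (ex false h : ℚ) +
          (- a / (a ^ 2 + b ^ 2)) * (ex true h : ℚ)) = b * (ex false h : ℚ) - a * (ex true h : ℚ)
        field_simp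
        ring
  set r : W ℚ := T g (rho x) with hr
  set s : W ℚ := T g (rho h) with hs
  set α : ℚ := g false false * (ex false h : ℚ) + g false true * (ex true h : ℚ) with hα
  have hdr : del false r = 0 := by
    rw [hr, del_T, del_rho, del_rho, smul_smul, smul_smul, ← add_smul, ← ha, ← hb, hrow, zero_smul,
      T_zero]
  have hds : del false s = α • s := by
    rw [hs, del_T, del_rho, del_rho, smul_smul, smul_smul, ← add_smul, T_smul]
  have hr0 : r [] = 1 := by rw [hr, T_nil, rho_nil]
  have hs0 : s [] = 1 := by rw [hs, T_nil, rho_nil]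
  refine ⟨fun k => r (List.replicate k false ++ [true]), α, ?_, ?_⟩
  · have h0 : r (List.replicate 0 false ++ [true]) = g true false * a + g true true * b := by
      show T g (rho x) [true] = _
      rw [T_cons, T_nil, T_nil, D_apply, D_apply, rho_letter, rho_letter]
    show r (List.replicate 0 false ++ [true]) * α = _
    rw [h0]
    exact hdet
  · intro n lam hlam
    have hT : ∀ f : W ℚ, pair (2 * n) lam f = pair (2 * n) lam (T g f) := by
      intro f
      rw [pair_T, hlam.inv]
      show g false false * g true true - g true false * g false true = 1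
      linarith
    have hy : ∀ i, (r - 1) (List.replicate i false) = 0 := by
      intro i
      cases i with
      | zero => simp [hr0]
      | succ i =>
        have h1 := del_replicate r i
        rw [hdr, zero_apply] at h1
        have h3 : ((i : ℚ) + 1) ≠ 0 := by positivity
        have h4 : r (List.replicate (i + 1) false) = 0 :=
          (mul_eq_zero.mp h1.symm).resolve_left h3
        rw [sub_apply, h4, List.replicate_succ, one_cons, sub_zero]
    have hv : ∀ k, n < k → pair (2 * n) lam ((r - 1) ^ k * s) = 0 := by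
      intro k hk
      rw [← pair_zero_right (2 * n) lam]
      apply pair_congr
      intro w hw hl
      have := hlam.supp w hw hl
      rw [order_pow (r - 1) s hy k w (by omega)]
      rfl
    obtain ⟨P, hP1, hP2, hP3⟩ := poly_of_pair n (2 * n) lam r s hv
    refine ⟨P, hP1, ?_, ?_⟩
    · rw [hP2]
      congr 1
      apply pair_congr
      intro w hw hl
      have hc := hlam.supp w hw hl
      rw [← pow_apply_eq r s hdr hr0 α hds hs0 w, hc]
    · intro t
      rw [hT, rho_mul, rho_pow, T_mul, ← hP3 t]
      have hTp : ∀ t : ℕ, T g (rho x ^ t) = r ^ t := by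
        intro t
        induction t with
        | zero => rw [pow_zero, pow_zero, T_one]
        | succ t ih => rw [pow_succ, pow_succ, T_mul, ih]
      rw [hTp]

end W

end Pool.Agent.MP_2bfd0d_al
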