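import Pool.Agent.MP_2bfd0d_al.TL

/-!
# The exponential representation of the free group of rank two
-/

namespace Pool.Agent.MP_2bfd0d_al

open Finset

namespace W

/-- Coefficients of a power series in the letter `c`. -/
def phiL (c : Bool) : List Bool → (ℕ → ℚ) → ℚ
  | [], F => F 0
  | (a :: w), F => if a = c then phiL c w (fun n => F (n + 1)) else 0

/-- The power series `∑ F n c ^ n` in the letter `c`. -/
def phi (c : Bool) (F : ℕ → ℚ) : W ℚ := fun w => phiL c w F

@[simp] lemma phi_nil (c : Bool) (F : ℕ → ℚ) : phi c F [] = F 0 := rfl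
@[simp] lemma phi_cons (c a : Bool) (F : ℕ → ℚ) (w : List Bool) :
    phi c F (a :: w) = if a = c then phi c (fun n => F (n + 1)) w else 0 := rfl

lemma D_phi_same (c : Bool) (F : ℕ → ℚ) : D c (phi c F) = phi c (fun n => F (n + 1)) := by
  ext w
  simp

lemma D_phi_ne {c a : Bool} (h : a ≠ c) (F : ℕ → ℚ) : D a (phi c F) = 0 := by
  ext w
  simp [h]

lemma phi_lin (c : Bool) (k : ℚ) (F G : ℕ → ℚ) (w : List Bool) :
    phi c (fun n => k * F n + G n) w = k * phi c F w + phi c G w := by
  induction w generalizing F G with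
  | nil => simp
  | cons a w ih =>
    by_cases h : a = c
    · simp only [phi_cons, h, if_true]
      exact ih _ _
    · simp [h]

/-- Cauchy product of sequences. -/
def conv (F G : ℕ → ℚ) (n : ℕ) : ℚ := ∑ ij ∈ antidiagonal n, F ij.1 * G ij.2

lemma conv_succ (F G : ℕ → ℚ) (n : ℕ) :
    conv F G (n + 1) = F 0 * G (n + 1) + conv (fun n => F (n + 1)) G n := by
  unfold conv
  rw [Finset.Nat.sum_antidiagonal_succ]

lemma phi_mul (c : Bool) (F G : ℕ → ℚ) : phi c F * phi c G = phi c (conv F G) := by
  ext w
  induction w generalizing F G with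
  | nil => simp [conv]
  | cons a w ih =>
    rw [mul_cons]
    by_cases h : a = c
    · subst h
      rw [D_phi_same, ih, phi_nil, phi_cons, phi_cons, if_pos rfl, if_pos rfl, ← phi_lin]
      congr 1
      funext n
      rw [conv_succ]
    · rw [D_phi_ne h, zero_mul, phi_cons, phi_cons, if_neg h, if_neg h]
      simp

/-- The exponential of `s` times the letter `c`. -/
def E (c : Bool) (s : ℚ) : W ℚ := phi c (fun n => s ^ n / n.factorial)

@[simp] lemma E_nil (c : Bool) (s : ℚ) : E c s [] = 1 := by simp [E]

lemma E_mul (c : Bool) (s t : ℚ) : E c s * E c t = E c (s + t) := by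
  unfold E
  rw [phi_mul]
  congr 1
  funext n
  unfold conv
  rw [(Commute.all s t).add_pow', sum_div]
  apply sum_congr rfl
  intro ij hij
  have hn : ij.1 + ij.2 = n := mem_antidiagonal.mp hij
  have h1 := Nat.choose_mul_factorial_mul_factorial (show ij.1 ≤ n by omega)
  rw [show n - ij.1 = ij.2 by omega] at h1
  have h2 : ((n.choose ij.1 : ℕ) : ℚ) * (ij.1.factorial : ℚ) * (ij.2.factorial : ℚ) =
      (n.factorial : ℚ) := by exact_mod_cast h1
  have h3 : (ij.1.factorial : ℚ) ≠ 0 := by exact_mod_cast Nat.factorial_ne_zero _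
  have h4 : (ij.2.factorial : ℚ) ≠ 0 := by exact_mod_cast Nat.factorial_ne_zero _
  have h5 : (n.factorial : ℚ) ≠ 0 := by exact_mod_cast Nat.factorial_ne_zero _
  rw [nsmul_eq_mul]
  field_simp
  rw [← h2]
  ring

lemma E_zero (c : Bool) : E c 0 = 1 := by
  ext w
  cases w with
  | nil => simp
  | cons a w =>
    have h0 : ∀ w : List Bool, phi c (fun _ => 0) w = 0 := by
      intro w
      induction w with
      | nil => simp
      | cons a w ih => simp [ih]
    unfold E
    rw [phi_cons]
    have h1 : (fun n : ℕ => (0 : ℚ) ^ (n + 1) / ((n + 1).factorial : ℕ)) = fun _ => 0 := by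
      funext n
      simp
    rw [h1, h0]
    simp

lemma del_phi (c' c : Bool) (F : ℕ → ℚ) :
    del c' (phi c F) = if c' = c then phi c (fun n => (n + 1) * F (n + 1)) else 0 := by
  ext w
  have hz : ∀ w : List Bool, del c' (0 : W ℚ) w = 0 := by
    intro w
    induction w with
    | nil => simp
    | cons a w ih => simp [ih]
  induction w generalizing F with
  | nil =>
    rw [del_nil, phi_cons]
    by_cases h : c' = c
    · rw [if_pos h, if_pos h]; simp
    · rw [if_neg h, if_neg h]; simp
  | cons a w ih =>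
    rw [del_cons]
    by_cases h : c' = c
    · subst h
      rw [if_pos rfl, phi_cons, if_pos rfl]
      by_cases ha : a = c'
      · subst ha
        rw [D_phi_same, ih, if_pos rfl, phi_cons, phi_cons, if_pos rfl, if_pos rfl]
        have e : (fun n : ℕ => ((((n + 1 : ℕ) : ℚ)) + 1) * F (n + 1 + 1)) =
            fun n : ℕ => 1 * F (n + 1 + 1) + ((n : ℚ) + 1) * F (n + 1 + 1) := by
          funext n
          push_cast
          ring
        rw [e, phi_lin, one_mul]
      · rw [D_phi_ne ha, hz, phi_cons, phi_cons, if_neg ha, if_neg ha, add_zero]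
    · rw [if_neg h, phi_cons, if_neg h, zero_apply, zero_add]
      by_cases ha : a = c
      · subst ha
        rw [D_phi_same, ih, if_neg h, zero_apply]
      · rw [D_phi_ne ha, hz]

lemma phi_smul (c : Bool) (k : ℚ) (F : ℕ → ℚ) : phi c (fun n => k * F n) = k • phi c F := by
  ext w
  have h0 : ∀ w : List Bool, phi c (fun _ => 0) w = 0 := by
    intro w
    induction w with
    | nil => simp
    | cons a w ih => simp [ih]
  have := phi_lin c k F (fun _ => 0) w
  rw [h0, add_zero] at this
  simpa using this

lemma del_E (c' c : Bool) (s : ℚ) : del c' (E c s) = (if c' = c then s else 0) • E c s := by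
  unfold E
  rw [del_phi]
  by_cases h : c' = c
  · rw [if_pos h, if_pos h, ← phi_smul]
    congr 1
    funext n
    rw [Nat.factorial_succ]
    have h5 : (n.factorial : ℚ) ≠ 0 := by exact_mod_cast Nat.factorial_ne_zero _
    have h6 : (n : ℚ) + 1 ≠ 0 := by positivity
    push_cast
    field_simp
    ring
  · rw [if_neg h, if_neg h, zero_smul]

/-- The free group of rank two. -/
abbrev F2 : Type := FreeGroup Bool

/-- The exponential representation. -/
def rhoU : F2 →* (W ℚ)ˣ :=
  FreeGroup.lift fun c => ⟨E c 1, E c (-1), by rw [E_mul]; simp [E_zero], by rw [E_mul]; simp [E_zero]⟩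

/-- The exponential representation, with values in the ring of series. -/
def rho (x : F2) : W ℚ := (rhoU x : (W ℚ)ˣ)

lemma rho_one : rho 1 = 1 := by simp [rho]

lemma rho_mul (x y : F2) : rho (x * y) = rho x * rho y := by simp [rho]

lemma rho_of (c : Bool) : rho (FreeGroup.of c) = E c 1 := by simp [rho, rhoU]

lemma rho_of_inv (c : Bool) : rho (FreeGroup.of c)⁻¹ = E c (-1) := by
  unfold rho rhoU
  rw [map_inv, FreeGroup.lift_apply_of]
  rfl

lemma rho_pow (x : F2) (t : ℕ) : rho (x ^ t) = rho x ^ t := by simp [rho]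

/-- The exponent sum of the letter `c`. -/
def exM (c : Bool) : F2 →* Multiplicative ℤ :=
  FreeGroup.lift fun c' => Multiplicative.ofAdd (if c = c' then 1 else 0)

/-- The exponent sum of the letter `c`. -/
def ex (c : Bool) (x : F2) : ℤ := Multiplicative.toAdd (exM c x)

lemma ex_one (c : Bool) : ex c 1 = 0 := by simp [ex]

lemma ex_mul (c : Bool) (x y : F2) : ex c (x * y) = ex c x + ex c y := by simp [ex]

lemma ex_inv (c : Bool) (x : F2) : ex c x⁻¹ = - ex c x := by simp [ex]

lemma ex_of (c c' : Bool) : ex c (FreeGroup.of c') = if c = c' then 1 else 0 := by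
  simp [ex, exM]

lemma ex_zpow (c : Bool) (x : F2) (k : ℤ) : ex c (x ^ k) = k * ex c x := by
  simp [ex]

lemma ex_surj (u v : ℤ) : ∃ x : F2, ex false x = u ∧ ex true x = v := by
  refine ⟨FreeGroup.of false ^ u * FreeGroup.of true ^ v, ?_, ?_⟩
  · rw [ex_mul, ex_zpow, ex_zpow, ex_of, ex_of]
    simp
  · rw [ex_mul, ex_zpow, ex_zpow, ex_of, ex_of]
    simp

lemma rho_nil (x : F2) : rho x [] = 1 := by
  induction x using FreeGroup.induction_on with
  | C1 => rw [rho_one]; rfl
  | of c => rw [rho_of]; simp
  | inv_of c _ => rw [rho_of_inv]; simp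
  | mul x y hx hy => rw [rho_mul, mul_nil, hx, hy, one_mul]

lemma del_rho (c : Bool) (x : F2) : del c (rho x) = (ex c x : ℚ) • rho x := by
  induction x using FreeGroup.induction_on with
  | C1 => rw [rho_one, del_one, ex_one]; simp
  | of c' => rw [rho_of, del_E, ex_of]; simp
  | inv_of c' _ =>
    rw [rho_of_inv, del_E, ex_inv, ex_of]
    by_cases h : c = c' <;> simp [h]
  | mul x y hx hy =>
    rw [rho_mul, del_mul, hx, hy, ex_mul, smul_mul_assoc, mul_smul_comm, ← add_smul]
    push_cast
    rfl

end W

end Pool.Agent.MP_2bfd0d_al
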