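import Mathlib

/-!
# Noncommutative formal power series in two letters

`W K` is the ring of functions from words in the letters `A = false`, `B = true` to `K` with the
convolution (Cauchy) product.
-/

namespace Pool.Agent.MP_2bfd0d_al

/-- Noncommutative formal power series in two letters, as functions on words. -/
def W (K : Type) : Type := List Bool → K

namespace W

variable {K : Type} [CommRing K]

instance : AddCommGroup (W K) := inferInstanceAs (AddCommGroup (List Bool → K))
instance : Module K (W K) := inferInstanceAs (Module K (List Bool → K))

@[ext] lemma ext {f g : W K} (h : ∀ w, f w = g w) : f = g := funext h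

@[simp] lemma add_apply (f g : W K) (w : List Bool) : (f + g) w = f w + g w := rfl
@[simp] lemma sub_apply (f g : W K) (w : List Bool) : (f - g) w = f w - g w := rfl
@[simp] lemma neg_apply (f : W K) (w : List Bool) : (-f) w = -f w := rfl
@[simp] lemma zero_apply (w : List Bool) : (0 : W K) w = 0 := rfl
@[simp] lemma smul_apply (k : K) (f : W K) (w : List Bool) : (k • f) w = k * f w := rfl

/-- Left derivative: `(D c f) w = f (c w)`. -/
def D (c : Bool) (f : W K) : W K := fun w => f (c :: w)

@[simp] lemma D_apply (c : Bool) (f : W K) (w : List Bool) : D c f w = f (c :: w) := rfl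
@[simp] lemma D_add (c : Bool) (f g : W K) : D c (f + g) = D c f + D c g := rfl
@[simp] lemma D_sub (c : Bool) (f g : W K) : D c (f - g) = D c f - D c g := rfl
@[simp] lemma D_neg (c : Bool) (f : W K) : D c (-f) = -D c f := rfl
@[simp] lemma D_smul (c : Bool) (k : K) (f : W K) : D c (k • f) = k • D c f := rfl
@[simp] lemma D_zero (c : Bool) : D c (0 : W K) = 0 := rfl

/-- The coefficient of a word in the product of two series. -/
def mulL : List Bool → W K → W K → K
  | [], f, g => f [] * g []
  | (c :: w), f, g => f [] * g (c :: w) + mulL w (D c f) g

instance : Mul (W K) := ⟨fun f g w => mulL w f g⟩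

@[simp] lemma mul_nil (f g : W K) : (f * g) [] = f [] * g [] := rfl
@[simp] lemma mul_cons (f g : W K) (c : Bool) (w : List Bool) :
    (f * g) (c :: w) = f [] * g (c :: w) + (D c f * g) w := rfl

lemma D_mul (f g : W K) (c : Bool) : D c (f * g) = f [] • D c g + D c f * g := rfl

/-- The unit series. -/
def oneL : List Bool → K
  | [] => 1
  | (_ :: _) => 0

instance : One (W K) := ⟨oneL⟩

@[simp] lemma one_nil : (1 : W K) [] = 1 := rfl
@[simp] lemma one_cons (c : Bool) (w : List Bool) : (1 : W K) (c :: w) = 0 := rfl
@[simp] lemma D_one (c : Bool) : D c (1 : W K) = 0 := rfl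

lemma zero_mul' (g : W K) : (0 : W K) * g = 0 := by
  ext w
  induction w with
  | nil => simp
  | cons c w ih => simpa using ih

lemma mul_zero' (f : W K) : f * (0 : W K) = 0 := by
  ext w
  induction w generalizing f with
  | nil => simp
  | cons c w ih => simpa using ih (D c f)

lemma add_mul' (f g h : W K) : (f + g) * h = f * h + g * h := by
  ext w
  induction w generalizing f g with
  | nil => simp [add_mul]
  | cons c w ih => simp [ih, add_mul]; ring

lemma mul_add' (f g h : W K) : f * (g + h) = f * g + f * h := by
  ext w
  induction w generalizing f with
  | nil => simp [mul_add]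
  | cons c w ih => simp [ih, mul_add]; ring

lemma smul_mul' (k : K) (f g : W K) : (k • f) * g = k • (f * g) := by
  ext w
  induction w generalizing f with
  | nil => simp [mul_assoc]
  | cons c w ih => simp [ih]; ring

lemma mul_smul' (k : K) (f g : W K) : f * (k • g) = k • (f * g) := by
  ext w
  induction w generalizing f with
  | nil => simp; ring
  | cons c w ih => simp [ih]; ring

lemma one_mul' (f : W K) : 1 * f = f := by
  ext w
  cases w with
  | nil => simp
  | cons c w => simp [zero_mul']

lemma mul_one' (f : W K) : f * 1 = f := by
  ext w
  induction w generalizing f with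
  | nil => simp
  | cons c w ih => simp [ih]

lemma mul_assoc' (f g h : W K) : f * g * h = f * (g * h) := by
  ext w
  induction w generalizing f with
  | nil => simp [mul_assoc]
  | cons c w ih =>
    rw [mul_cons, D_mul, add_mul', smul_mul']
    simp [ih]
    ring

instance : Ring (W K) :=
  { (inferInstance : AddCommGroup (W K)), (inferInstance : Mul (W K)),
    (inferInstance : One (W K)) with
    left_distrib := mul_add'
    right_distrib := add_mul'
    zero_mul := zero_mul'
    mul_zero := mul_zero'
    mul_assoc := mul_assoc'
    one_mul := one_mul'
    mul_one := mul_one' }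

instance : Algebra K (W K) := Algebra.ofModule smul_mul' mul_smul'

/-! ### Substitutions -/

/-- The coefficient of a word after the linear substitution with matrix `g`. -/
def TL (g : Bool → Bool → K) : List Bool → W K → K
  | [], f => f []
  | (c :: w), f => g c false * TL g w (D false f) + g c true * TL g w (D true f)

/-- The linear substitution with matrix `g`. -/
def T (g : Bool → Bool → K) (f : W K) : W K := fun w => TL g w f

@[simp] lemma T_nil (g : Bool → Bool → K) (f : W K) : T g f [] = f [] := rfl
@[simp] lemma T_cons (g : Bool → Bool → K) (f : W K) (c : Bool) (w : List Bool) :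
    T g f (c :: w) = g c false * T g (D false f) w + g c true * T g (D true f) w := rfl

lemma D_T (g : Bool → Bool → K) (f : W K) (c : Bool) :
    D c (T g f) = g c false • T g (D false f) + g c true • T g (D true f) := rfl

@[simp] lemma T_add (g : Bool → Bool → K) (f h : W K) : T g (f + h) = T g f + T g h := by
  ext w
  induction w generalizing f h with
  | nil => simp
  | cons c w ih => simp [ih]; ring

@[simp] lemma T_smul (g : Bool → Bool → K) (k : K) (f : W K) : T g (k • f) = k • T g f := by
  ext w
  induction w generalizing f with
  | nil => simp
  | cons c w ih => simp [ih]; ring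

@[simp] lemma T_zero (g : Bool → Bool → K) : T g (0 : W K) = 0 := by
  simpa using T_smul g (0 : K) (0 : W K)

@[simp] lemma T_neg (g : Bool → Bool → K) (f : W K) : T g (-f) = -T g f := by
  simpa using T_smul g (-1 : K) f

@[simp] lemma T_sub (g : Bool → Bool → K) (f h : W K) : T g (f - h) = T g f - T g h := by
  rw [sub_eq_add_neg, T_add, T_neg, ← sub_eq_add_neg]

@[simp] lemma T_one (g : Bool → Bool → K) : T g (1 : W K) = 1 := by
  ext w
  cases w with
  | nil => simp
  | cons c w => simp

@[simp] lemma T_mul (g : Bool → Bool → K) (f h : W K) : T g (f * h) = T g f * T g h := by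
  ext w
  induction w generalizing f h with
  | nil => simp
  | cons c w ih =>
    rw [T_cons, D_mul, D_mul, T_add, T_add, T_smul, T_smul, mul_cons, D_T]
    simp [add_mul, ih]
    ring

/-! ### Pairing -/

/-- The pairing of two series over the words of length `n`. -/
def pair : ℕ → W K → W K → K
  | 0, l, f => l [] * f []
  | (n + 1), l, f => pair n (D false l) (D false f) + pair n (D true l) (D true f)

@[simp] lemma pair_zero (l f : W K) : pair 0 l f = l [] * f [] := rfl
@[simp] lemma pair_succ (n : ℕ) (l f : W K) :
    pair (n + 1) l f = pair n (D false l) (D false f) + pair n (D true l) (D true f) := rfl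

lemma pair_add_left (n : ℕ) (l l' f : W K) : pair n (l + l') f = pair n l f + pair n l' f := by
  induction n generalizing l l' f with
  | zero => simp [add_mul]
  | succ n ih => simp [ih]; ring

lemma pair_add_right (n : ℕ) (l f f' : W K) : pair n l (f + f') = pair n l f + pair n l f' := by
  induction n generalizing l f f' with
  | zero => simp [mul_add]
  | succ n ih => simp [ih]; ring

lemma pair_smul_left (n : ℕ) (k : K) (l f : W K) : pair n (k • l) f = k * pair n l f := by
  induction n generalizing l f with
  | zero => simp [mul_assoc]
  | succ n ih => simp [ih]; ring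

lemma pair_smul_right (n : ℕ) (k : K) (l f : W K) : pair n l (k • f) = k * pair n l f := by
  induction n generalizing l f with
  | zero => simp; ring
  | succ n ih => simp [ih]; ring

/-- Adjointness of the substitutions with `g` and with the transpose of `g`. -/
lemma pair_T (g : Bool → Bool → K) (n : ℕ) (l f : W K) :
    pair n l (T g f) = pair n (T (fun c c' => g c' c) l) f := by
  induction n generalizing l f with
  | zero => simp
  | succ n ih =>
    simp only [pair_succ, D_T, pair_add_left, pair_add_right, pair_smul_left, pair_smul_right, ih]
    ring

/-! ### The derivations `f ↦ f (w ⧢ c)` -/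

/-- The sum of the coefficients of all words obtained from `w` by inserting the letter `c`. -/
def dL (c : Bool) : List Bool → W K → K
  | [], f => f [c]
  | (a :: w), f => f (c :: a :: w) + dL c w (D a f)

/-- The derivation of the ring of series dual to the shuffle product with the letter `c`. -/
def del (c : Bool) (f : W K) : W K := fun w => dL c w f

@[simp] lemma del_nil (c : Bool) (f : W K) : del c f [] = f [c] := rfl
@[simp] lemma del_cons (c : Bool) (f : W K) (a : Bool) (w : List Bool) :
    del c f (a :: w) = f (c :: a :: w) + del c (D a f) w := rfl

lemma D_del (c : Bool) (f : W K) (a : Bool) :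
    D a (del c f) = D a (D c f) + del c (D a f) := rfl

@[simp] lemma del_add (c : Bool) (f h : W K) : del c (f + h) = del c f + del c h := by
  ext w
  induction w generalizing f h with
  | nil => simp
  | cons a w ih => simp [ih]; ring

@[simp] lemma del_smul (c : Bool) (k : K) (f : W K) : del c (k • f) = k • del c f := by
  ext w
  induction w generalizing f with
  | nil => simp
  | cons a w ih => simp [ih]; ring

@[simp] lemma del_one (c : Bool) : del c (1 : W K) = 0 := by
  ext w
  have h0 : ∀ w, del c (0 : W K) w = 0 := by
    intro w
    induction w with
    | nil => simp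
    | cons a w ih => simp [ih]
  cases w with
  | nil => simp
  | cons a w => simp [h0]

lemma del_mul (c : Bool) (f h : W K) : del c (f * h) = del c f * h + f * del c h := by
  ext w
  induction w generalizing f h with
  | nil => simp; ring
  | cons a w ih =>
    have e1 : del c (D a (f * h)) w = f [] * del c (D a h) w + ((del c (D a f) * h) w +
        (D a f * del c h) w) := by
      rw [D_mul, del_add, del_smul, add_apply, smul_apply, ih]
      rfl
    rw [del_cons, e1, add_apply, mul_cons, mul_cons, mul_cons, D_del, add_mul, add_apply]
    simp
    ring

lemma del_T (g : Bool → Bool → K) (c : Bool) (f : W K) :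
    del c (T g f) = T g (g c false • del false f + g c true • del true f) := by
  ext w
  induction w generalizing f with
  | nil => simp
  | cons a w ih =>
    rw [del_cons, D_T, del_add, del_smul, del_smul, add_apply, smul_apply, smul_apply, ih, ih]
    simp [D_del]
    ring

end W

end Pool.Agent.MP_2bfd0d_al
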