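import Pool.Agent.MP_2bfd0d_al.Series

/-!
# Invariant functionals attached to noncrossing matchings
-/

namespace Pool.Agent.MP_2bfd0d_al

namespace W

variable {K : Type} [CommRing K]

/-- The series with a single letter. -/
def letterL (c : Bool) : List Bool → K
  | [] => 0
  | (a :: w) => if a = c then oneL w else 0

/-- The series with a single letter. -/
def letter (c : Bool) : W K := letterL c

@[simp] lemma letter_nil (c : Bool) : (letter c : W K) [] = 0 := rfl

lemma D_letter_same (c : Bool) : D c (letter c : W K) = 1 := by
  ext w
  show (if c = c then (oneL w : K) else 0) = oneL w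
  simp

lemma D_letter_ne {c a : Bool} (h : a ≠ c) : D a (letter c : W K) = 0 := by
  ext w
  show (if a = c then (oneL w : K) else 0) = 0
  simp [h]

lemma letter_cons (c a : Bool) (w : List Bool) :
    (letter c : W K) (a :: w) = if a = c then (1 : W K) w else 0 := rfl

lemma letter_mul_nil (c : Bool) (f : W K) : (letter c * f : W K) [] = 0 := by simp

lemma letter_mul_cons (c a : Bool) (f : W K) (w : List Bool) :
    (letter c * f : W K) (a :: w) = if a = c then f w else 0 := by
  rw [mul_cons, letter_nil, zero_mul, zero_add]
  by_cases h : a = c
  · subst h
    rw [D_letter_same, if_pos rfl, one_mul]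
  · rw [D_letter_ne h, if_neg h, zero_mul, zero_apply]

/-- Bracketing: `cap x = A x B - B x A`. -/
def cap (x : W K) : W K := letter false * x * letter true - letter true * x * letter false

lemma T_letter (g : Bool → Bool → K) (c : Bool) :
    T g (letter c) = g false c • letter false + g true c • letter true := by
  ext w
  cases w with
  | nil => simp
  | cons a w =>
    rw [T_cons, add_apply, smul_apply, smul_apply, letter_cons, letter_cons]
    cases c
    · rw [D_letter_same, D_letter_ne (by decide), T_one, T_zero, zero_apply]
      cases a <;> simp
    · rw [D_letter_same, D_letter_ne (by decide), T_one, T_zero, zero_apply]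
      cases a <;> simp

lemma T_cap (g : Bool → Bool → K) (hg : g false false * g true true - g false true * g true false = 1)
    (x : W K) : T g (cap x) = cap (T g x) := by
  unfold cap
  rw [T_sub, T_mul, T_mul, T_mul, T_mul, T_letter, T_letter]
  simp only [add_mul, mul_add, smul_mul_assoc, mul_smul_comm, smul_add, smul_smul]
  have h1 : (letter false * T g x * letter true : W K) =
      (g false false * g true true - g false true * g true false) •
        (letter false * T g x * letter true) := by rw [hg, one_smul]
  have h2 : (letter true * T g x * letter false : W K) =
      (g false false * g true true - g false true * g true false) •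
        (letter true * T g x * letter false) := by rw [hg, one_smul]
  conv_rhs => rw [h1, h2]
  module

/-- Noncrossing matchings as binary trees: `node a b` stands for `(a)b`. -/
inductive TLt : Type
  | nil : TLt
  | node : TLt → TLt → TLt

/-- The number of points of a matching. -/
def TLt.len : TLt → ℕ
  | .nil => 0
  | .node a b => a.len + (b.len + 2)

/-- The series attached to a noncrossing matching. -/
def TLt.ev : TLt → W K
  | .nil => 1
  | .node a b => cap a.ev * b.ev

/-- The coefficients of the series attached to a noncrossing matching. -/
def TLt.evZ : TLt → List Bool → ℤ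
  | .nil, [] => 1
  | .nil, (_ :: _) => 0
  | .node _ _, [] => 0
  | .node a b, (c :: w) =>
    match w.drop a.len with
    | [] => 0
    | (c' :: v) =>
      (if c = false then (if c' = true then 1 else 0) else (if c' = true then 0 else -1)) *
        (a.evZ (w.take a.len) * b.evZ v)

/-- `f` is supported on words of length `k`. -/
def Hom (k : ℕ) (f : W K) : Prop := ∀ w : List Bool, w.length ≠ k → f w = 0

lemma Hom.mul_apply {k : ℕ} {f : W K} (hf : Hom k f) (g : W K) (w : List Bool) :
    (f * g) w = f (w.take k) * g (w.drop k) := by
  induction w generalizing f k with
  | nil => simp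
  | cons c w ih =>
    rw [mul_cons]
    cases k with
    | zero =>
      have h1 : Hom 0 f := hf
      have h2 : D c f = 0 := by
        ext u
        exact hf _ (by simp)
      rw [h2, zero_mul]
      simp
    | succ k =>
      have h1 : f [] = 0 := hf _ (by simp)
      have h2 : Hom k (D c f) := by
        intro u hu
        exact hf _ (by simpa using hu)
      rw [ih h2, h1, zero_mul, zero_add]
      simp

lemma Hom.mul {k l : ℕ} {f g : W K} (hf : Hom k f) (hg : Hom l g) : Hom (k + l) (f * g) := by
  intro w hw
  rw [hf.mul_apply]
  by_cases h : w.length < k
  · rw [hf (w.take k) (by simp; omega), zero_mul]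
  · rw [hg (w.drop k) (by simp; omega), mul_zero]

lemma hom_letter (c : Bool) : Hom 1 (letter c : W K) := by
  intro w hw
  match w with
  | [] => rfl
  | [a] => simp at hw
  | (a :: b :: w) =>
    show (if a = c then (oneL (b :: w) : K) else 0) = 0
    simp [oneL]

lemma hom_ev (t : TLt) : Hom t.len (t.ev : W K) := by
  induction t with
  | nil =>
    intro w hw
    cases w with
    | nil => exact absurd rfl hw
    | cons a w => rfl
  | node a b iha ihb =>
    have h1 := (((hom_letter (K := K) false).mul iha).mul (hom_letter true)).mul ihb
    have h2 := (((hom_letter (K := K) true).mul iha).mul (hom_letter false)).mul ihb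
    intro w hw
    have hw' : w.length ≠ 1 + a.len + 1 + b.len := by
      unfold TLt.len at hw
      omega
    show (cap a.ev * b.ev : W K) w = 0
    unfold cap
    rw [sub_mul, sub_apply, h1 w hw', h2 w hw', sub_zero]

lemma ev_eq (t : TLt) (w : List Bool) : (t.ev : W K) w = ((t.evZ w : ℤ) : K) := by
  induction t generalizing w with
  | nil => cases w <;> simp [TLt.ev, TLt.evZ]
  | node a b iha ihb =>
    show (cap a.ev * b.ev : W K) w = _
    unfold cap
    rw [sub_mul, sub_apply, mul_assoc, mul_assoc, mul_assoc, mul_assoc]
    cases w with
    | nil => simp [TLt.evZ]
    | cons c w =>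
      rw [letter_mul_cons, letter_mul_cons, (hom_ev (K := K) a).mul_apply,
        (hom_ev (K := K) a).mul_apply]
      unfold TLt.evZ
      cases h : w.drop a.len with
      | nil => simp
      | cons c' v =>
        rw [letter_mul_cons, letter_mul_cons, iha, ihb]
        cases c <;> cases c' <;> simp

lemma T_ev (g : Bool → Bool → K)
    (hg : g false false * g true true - g false true * g true false = 1) (t : TLt) :
    T g (t.ev : W K) = t.ev := by
  induction t with
  | nil => exact T_one g
  | node a b iha ihb =>
    show T g (cap a.ev * b.ev) = cap a.ev * b.ev
    rw [T_mul, T_cap g hg, iha, ihb]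

end W

end Pool.Agent.MP_2bfd0d_al
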